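import Pool.Agent.H4NS.Close

/-!
The bootstrap argument for the local energies.
-/

open MeasureTheory Set Metric Filter Topology
open scoped ContDiff

namespace Pool.Agent.H4NS

open H459R3.NS W221.NS
open Pool.Agent.W386.MD (cont_nsq cont_adv nsq_nonneg cs iob rr_pos rr_anti adv_zero A2_mono)

theorem sqrt_32 (j : ℕ) : √((32 : ℝ) ^ j) = 4 ^ j * √(2 ^ j) := by
  have e1 : (32 : ℝ) ^ j = (4 ^ j) ^ 2 * 2 ^ j := by
    rw [← pow_mul, mul_comm j 2, pow_mul, ← mul_pow]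
    norm_num
  rw [e1, Real.sqrt_mul (by positivity), Real.sqrt_sq (by positivity)]

theorem DD_eq' {ε : ℝ} (hε : 0 ≤ ε) (n k : ℕ) :
    √((1 / 8) ^ k * (9 * LL ε n k)) * √(2 ^ k) = 3 * √ε * √(2 ^ n) / 4 ^ k := by
  have e1 : (1 / 8 : ℝ) ^ k * (9 * LL ε n k) = (3 ^ 2 * (ε * 2 ^ n)) / 32 ^ k := by
    unfold LL
    have : (32 : ℝ) ^ k = 8 ^ k * 4 ^ k := by rw [← mul_pow]; norm_num
    rw [this, div_pow, one_pow]
    field_simp
    ring
  rw [e1, Real.sqrt_div (by positivity), sqrt_32, Real.sqrt_mul (by positivity),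
    Real.sqrt_sq (by norm_num), Real.sqrt_mul hε]
  have h2 : √((2 : ℝ) ^ k) ≠ 0 := (Real.sqrt_pos.2 (by positivity)).ne'
  field_simp

/-- One scale. -/
theorem step_scale : ∃ C : ℝ, 0 < C ∧ ∀ (T : ℝ) (u : ℝ → V → V) (p : ℝ → V → ℝ), IsSol 1 T u p →
    ∀ (ε δ l : ℝ) (a : V) (n k : ℕ) (t₀ t₁ : ℝ), 0 ≤ ε → 0 ≤ δ → l ≤ 1 → 5 ≤ k → k ≤ n →
      t₀ ∈ Ioo 0 T → t₁ ∈ Ioo 0 T → t₀ ≤ t₁ → 4 ^ n * (t₁ - t₀) ≤ l →
      energy (u 0) ≤ δ * √ε * √(2 ^ n) → Boot ε t₀ t₁ a n u →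
      A2 a (rr (k + 1)) (u t₁) + ∫ τ in t₀..t₁, B2 a (rr (k + 1)) (u τ)
        ≤ A2 a (rr k) (u t₀) + C * (l + √ε + δ) * LL ε n k := by
  obtain ⟨CF, hCF, hF⟩ := flux_HH
  obtain ⟨M, hM, hcf⟩ := cf_bd
  refine ⟨9 * M + 648 * CF, by positivity, ?_⟩
  intro T u p h ε δ l a n k t₀ t₁ hε hδ hl1 hk hkn h0 h1 h01 hl hE hB
  have hLL := LL_nonneg hε n k
  have hid := en_int h a k h0 h1 h01
  have hI : ∀ s ∈ Icc t₀ t₁, s ∈ Ioo 0 T := fun s hs =>
    ⟨h0.1.trans_le hs.1, hs.2.trans_lt h1.2⟩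
  have hl0 : 0 ≤ l := le_trans (mul_nonneg (by positivity) (by linarith)) hl
  -- lower bounds
  have a1 : A2 a (rr (k + 1)) (u t₁) ≤ ∫ z, nsq (u t₁) z * cf a k z :=
    cf_lower (cont_nsq (spv_u h h1).1) (nsq_nonneg _) a k
  have a2 : ∫ τ in t₀..t₁, B2 a (rr (k + 1)) (u τ) ≤
      ∫ s in t₀..t₁, ∫ z, gsq (u s) z * cf a k z := by
    refine intervalIntegral.integral_mono_on h01 (ii (ct_B2 h a _) h0 h1)
      (ii (ct_D h a k) h0 h1) fun s hs => ?_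
    exact cf_lower (cont_gsq (spv_u h (hI s hs)).1) (gsq_nonneg _) a k
  have a3 : 0 ≤ ∫ τ in t₀..t₁, B2 a (rr (k + 1)) (u τ) :=
    intervalIntegral.integral_nonneg h01 fun τ _ => B2_nonneg _ _ _
  have a4 : ∫ z, nsq (u t₀) z * cf a k z ≤ A2 a (rr k) (u t₀) :=
    cf_upper (cont_nsq (spv_u h h0).1) (nsq_nonneg _) a k
  -- the bound for the local energy
  have hb : ∀ s ∈ Icc t₀ t₁, A2 a (rr k) (u s) ≤ 9 * LL ε n k := by
    intro s hs
    have e1 := hB k (by omega) hkn s hs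
    have e2 : 0 ≤ ∫ τ in t₀..s, B2 a (rr k) (u τ) :=
      intervalIntegral.integral_nonneg hs.1 fun τ _ => B2_nonneg _ _ _
    linarith
  -- the Laplacian
  have a5 : ∫ s in t₀..t₁, ∫ z, nsq (u s) z * lap (cf a k) z ≤ 9 * M * l * LL ε n k := by
    have e1 : ∫ s in t₀..t₁, ∫ z, nsq (u s) z * lap (cf a k) z ≤
        ∫ s in t₀..t₁, M * 4 ^ k * (9 * LL ε n k) := by
      refine intervalIntegral.integral_mono_on h01 (ii (ct_L h a k) h0 h1)
        intervalIntegrable_const fun s hs => ?_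
      refine (le_abs_self _).trans ((lap_bd (hcf a k).2 (spv_u h (hI s hs)).1).trans ?_)
      exact mul_le_mul_of_nonneg_left (hb s hs) (by positivity)
    rw [intervalIntegral.integral_const, smul_eq_mul] at e1
    refine e1.trans ?_
    have e2 : (4 : ℝ) ^ k ≤ 4 ^ n := pow_le_pow_right₀ (by norm_num) hkn
    have e3 : (t₁ - t₀) * 4 ^ k ≤ l := by
      refine le_trans ?_ hl
      rw [mul_comm]
      exact mul_le_mul_of_nonneg_right e2 (by linarith)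
    calc (t₁ - t₀) * (M * 4 ^ k * (9 * LL ε n k)) = ((t₁ - t₀) * 4 ^ k) * (9 * M * LL ε n k) := by
          ring
      _ ≤ l * (9 * M * LL ε n k) := mul_le_mul_of_nonneg_right e3 (by positivity)
      _ = _ := by ring
  -- the flux
  set D : ℝ := √((1 / 8) ^ k * (9 * LL ε n k)) with hD
  have hD0 : 0 ≤ D := Real.sqrt_nonneg _
  have hHc := ii (ct_HH h a n k) h0 h1
  have hH0 : ∀ s, 0 ≤ HH a n k (u s) := by
    intro s
    unfold HH
    refine add_nonneg (Finset.sum_nonneg fun j _ => ?_)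
      (add_nonneg (energy_nonneg' _) (enstrophy_nonneg' _))
    have := A2_nonneg a (rr (j - 1)) (u s)
    have := B2_nonneg a (rr (j - 1)) (u s)
    positivity
  have a6 : ∫ s in t₀..t₁, ∫ z, (nsq (u s) z + 2 * p s z) * adv (u s) (cf a k) z ≤
      CF * D * ∫ s in t₀..t₁, HH a n k (u s) := by
    rw [← intervalIntegral.integral_const_mul]
    refine intervalIntegral.integral_mono_on h01 (ii (ct_F h a k) h0 h1) (hHc.const_mul _)
      fun s hs => ?_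
    refine (le_abs_self _).trans ((hF T u p h s (hI s hs) a n k hk hkn).trans ?_)
    rw [mul_assoc]
    refine mul_le_mul_of_nonneg_left (mul_le_mul_of_nonneg_right ?_ (hH0 s)) hCF.le
    exact Real.sqrt_le_sqrt (mul_le_mul_of_nonneg_left (hb s hs) (by positivity))
  have a7 := int_HH h hε hk hkn h0 h1 h01 (hl.trans hl1) hB
  have a8 : D * √(2 ^ k) = 3 * √ε * √(2 ^ n) / 4 ^ k := DD_eq' hε n k
  have h2n : √((2 : ℝ) ^ n) * √(2 ^ n) = 2 ^ n := Real.mul_self_sqrt (by positivity)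
  have hee : √ε * √ε = ε := Real.mul_self_sqrt hε
  have a9 : D * (ε * √(2 ^ n) * √(2 ^ k)) = 3 * √ε * LL ε n k := by
    calc D * (ε * √(2 ^ n) * √(2 ^ k)) = ε * √(2 ^ n) * (D * √(2 ^ k)) := by ring
      _ = ε * √(2 ^ n) * (3 * √ε * √(2 ^ n) / 4 ^ k) := by rw [a8]
      _ = 3 * √ε * (ε * (√(2 ^ n) * √(2 ^ n)) / 4 ^ k) := by ring
      _ = _ := by rw [h2n]; rfl
  have a10 : D * energy (u 0) ≤ 3 * δ * LL ε n k := by
    have e1 : D ≤ 3 * √ε * √(2 ^ n) / 4 ^ k := by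
      rw [← a8]
      refine le_mul_of_one_le_right hD0 ?_
      rw [Real.one_le_sqrt]
      exact one_le_pow₀ (by norm_num)
    calc D * energy (u 0) ≤ (3 * √ε * √(2 ^ n) / 4 ^ k) * (δ * √ε * √(2 ^ n)) :=
          mul_le_mul e1 hE (energy_nonneg' _) (by positivity)
      _ = 3 * δ * ((√ε * √ε) * (√(2 ^ n) * √(2 ^ n)) / 4 ^ k) := by ring
      _ = _ := by rw [h2n, hee]; rfl
  have a11 : CF * D * ∫ s in t₀..t₁, HH a n k (u s) ≤
      CF * (648 * √ε * LL ε n k + 6 * δ * LL ε n k) := by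
    have e1 : D * ∫ s in t₀..t₁, HH a n k (u s) ≤
        D * (216 * (ε * √(2 ^ n) * √(2 ^ k)) + 2 * energy (u 0)) :=
      mul_le_mul_of_nonneg_left a7 hD0
    have e2 : D * (216 * (ε * √(2 ^ n) * √(2 ^ k)) + 2 * energy (u 0)) =
        216 * (D * (ε * √(2 ^ n) * √(2 ^ k))) + 2 * (D * energy (u 0)) := by ring
    rw [mul_assoc]
    refine mul_le_mul_of_nonneg_left ?_ hCF.le
    rw [e2, a9] at e1
    linarith
  have q1 : 0 ≤ CF * (l * LL ε n k) := by positivity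
  have q2 : 0 ≤ M * (√ε * LL ε n k) := by positivity
  have q3 : 0 ≤ M * (δ * LL ε n k) := by positivity
  have q4 : 0 ≤ CF * (δ * LL ε n k) := by positivity
  have e : A2 a (rr k) (u t₀) + (9 * M + 648 * CF) * (l + √ε + δ) * LL ε n k =
    A2 a (rr k) (u t₀) + (9 * M * l * LL ε n k + 9 * (M * (√ε * LL ε n k))
      + 9 * (M * (δ * LL ε n k)) + 648 * (CF * (l * LL ε n k))
      + CF * (648 * √ε * LL ε n k + 6 * δ * LL ε n k) + 642 * (CF * (δ * LL ε n k))) := by ring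
  rw [e]
  linarith

/-- Continuous induction for finitely many functions. -/
theorem boot {s : Finset ℕ} {Y : ℕ → ℝ → ℝ} {A B : ℕ → ℝ} {t₀ T : ℝ}
    (hAB : ∀ k ∈ s, A k < B k) (hc : ∀ k ∈ s, ContinuousOn (Y k) (Ico t₀ T))
    (h0 : ∀ k ∈ s, Y k t₀ ≤ A k)
    (hs : ∀ t ∈ Ico t₀ T, (∀ k ∈ s, ∀ τ ∈ Icc t₀ t, Y k τ ≤ B k) → ∀ k ∈ s, Y k t ≤ A k) :
    ∀ t ∈ Ico t₀ T, ∀ k ∈ s, ∀ τ ∈ Icc t₀ t, Y k τ ≤ B k := by
  intro t ht
  by_contra hcon
  push Not at hcon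
  obtain ⟨k₀, hk₀, τ₀, hτ₀, hY₀⟩ := hcon
  -- the first bad time
  set S : Set ℝ := ⋃ k ∈ s, {τ ∈ Icc t₀ t | B k ≤ Y k τ} with hS
  have hsub : Icc t₀ t ⊆ Ico t₀ T := fun x hx => ⟨hx.1, hx.2.trans_lt ht.2⟩
  have hcl : IsCompact S := by
    refine s.isCompact_biUnion fun k hk => ?_
    have : IsClosed {τ ∈ Icc t₀ t | B k ≤ Y k τ} :=
      isClosed_Icc.isClosed_le continuousOn_const ((hc k hk).mono hsub)
    exact isCompact_Icc.of_isClosed_subset this fun x hx => hx.1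
  have hne : S.Nonempty := ⟨τ₀, by
    rw [hS]
    simp only [mem_iUnion]
    exact ⟨k₀, hk₀, hτ₀, hY₀.le⟩⟩
  obtain ⟨σ, hσS, hσ⟩ := hcl.exists_isLeast hne
  rw [hS] at hσS
  simp only [mem_iUnion] at hσS
  obtain ⟨k₁, hk₁, hσI, hσB⟩ := hσS
  have hlt : ∀ k ∈ s, ∀ τ ∈ Icc t₀ σ, τ ≠ σ → Y k τ < B k := by
    intro k hk τ hτ hne'
    by_contra hcon
    rw [not_lt] at hcon
    have hτS : τ ∈ S := by
      rw [hS]
      simp only [mem_iUnion]
      exact ⟨k, hk, ⟨hτ.1, hτ.2.trans hσI.2⟩, hcon⟩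
    exact hne' (le_antisymm hτ.2 (hσ hτS))
  have hle : ∀ k ∈ s, ∀ τ ∈ Icc t₀ σ, Y k τ ≤ B k := by
    intro k hk τ hτ
    by_cases hτσ : τ = σ
    · subst hτσ
      by_contra hcon
      rw [not_le] at hcon
      have hB0 : Y k t₀ < B k := (h0 k hk).trans_lt (hAB k hk)
      have hiv := intermediate_value_Icc hσI.1 ((hc k hk).mono
        (fun x hx => ⟨hx.1, (hx.2.trans hσI.2).trans_lt ht.2⟩))
      obtain ⟨ρ, hρ, hρe⟩ := hiv ⟨hB0.le, hcon.le⟩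
      by_cases hρσ : ρ = τ
      · rw [hρσ] at hρe
        exact absurd hρe hcon.ne'
      · exact absurd (hlt k hk ρ hρ hρσ) (not_lt.2 hρe.ge)
    · exact (hlt k hk τ hτ hτσ).le
  have h2 := hs σ (hsub hσI) hle k₁ hk₁
  exact absurd (h2.trans_lt (hAB k₁ hk₁)) (not_lt.2 hσB)

end Pool.Agent.H4NS
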