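import Pool.Agent.H4NS.Time

/-!
The closure of the estimates for the local energies at dyadic scales.
-/

open MeasureTheory Set Metric Filter Topology
open scoped ContDiff

namespace Pool.Agent.H4NS

open H459R3.NS W221.NS
open Pool.Agent.W386.MD (cont_nsq cont_adv nsq_nonneg cs iob rr_pos rr_anti adv_zero A2_mono)
open Pool.Agent.Y8 (en_id DD pint_cont pint_cont_c nsq_joint gsq_joint adv_joint sl_sm)

/-- The integrand which bounds the flux at the scale `2⁻ᵏ`. -/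
noncomputable def HH (a : V) (n k : ℕ) (v : V → V) : ℝ :=
  ∑ j ∈ Finset.Ico 3 (k - 1), √(32 ^ j) * (√(rr n) *
    (4 ^ n * A2 a (rr (j - 1)) v + B2 a (rr (j - 1)) v)) + (energy v + enstrophy v)

theorem A2_nonneg (a : V) (ρ : ℝ) (v : V → V) : 0 ≤ A2 a ρ v :=
  integral_nonneg fun z => nsq_nonneg v z

theorem B2_nonneg (a : V) (ρ : ℝ) (v : V → V) : 0 ≤ B2 a ρ v :=
  integral_nonneg fun z => gsq_nonneg v z

/-- The flux in terms of the local energies. -/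
theorem flux_HH : ∃ C : ℝ, 0 < C ∧ ∀ (T : ℝ) (u : ℝ → V → V) (p : ℝ → V → ℝ), IsSol 1 T u p →
    ∀ t ∈ Ioo 0 T, ∀ (a : V) (n k : ℕ), 5 ≤ k → k ≤ n →
      |∫ z, (nsq (u t) z + 2 * p t z) * adv (u t) (cf a k) z|
        ≤ C * (√((1 / 8) ^ k * A2 a (rr k) (u t)) * HH a n k (u t)) := by
  obtain ⟨CF, hCF, hF⟩ := flux_bd
  obtain ⟨CL, hCL, hL⟩ := B.p_l4
  obtain ⟨CQ, hCQ, hQ⟩ := q4_le
  obtain ⟨M, hM, hcf⟩ := cf_bd
  refine ⟨CF * (1 + M) * (CL + CQ), by positivity, ?_⟩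
  intro T u p h t ht a n k hk hkn
  have hsv := spv_u h ht
  have hI := Ioo_sub ht
  have h1 := hF (u t) (p t) hsv (h.sp_p hI) (h.divfree t hI) (fun x => t_div h ht x) a k hk M
    (cf a k) (by linarith) (cf_sm a k) cf_zero (fun z => by
      rw [abs_of_nonneg (cf_nonneg a k z)]
      exact cf_le a k z) (hcf a k).1
  refine h1.trans ?_
  have hX : 0 ≤ √((1 / 8) ^ k * A2 a (rr k) (u t)) := Real.sqrt_nonneg _
  have h2 : ∑ j ∈ Finset.Ico 3 (k - 1), √(32 ^ j) * √(L4 a (rr j) (u t)) ≤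
      CL * ∑ j ∈ Finset.Ico 3 (k - 1), √(32 ^ j) * (√(rr n) *
        (4 ^ n * A2 a (rr (j - 1)) (u t) + B2 a (rr (j - 1)) (u t))) := by
    rw [Finset.mul_sum]
    refine Finset.sum_le_sum fun j hj => ?_
    rw [Finset.mem_Ico] at hj
    have h3 := hL (u t) hsv.1 a (j - 1) n (by omega)
    have e : j - 1 + 1 = j := by omega
    rw [e] at h3
    calc √(32 ^ j) * √(L4 a (rr j) (u t)) ≤ √(32 ^ j) * (CL * √(rr n) *
          (4 ^ n * A2 a (rr (j - 1)) (u t) + B2 a (rr (j - 1)) (u t))) :=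
          mul_le_mul_of_nonneg_left h3 (Real.sqrt_nonneg _)
      _ = _ := by ring
  have h3 := hQ (u t) hsv
  have hS : 0 ≤ ∑ j ∈ Finset.Ico 3 (k - 1), √(32 ^ j) * (√(rr n) *
        (4 ^ n * A2 a (rr (j - 1)) (u t) + B2 a (rr (j - 1)) (u t))) :=
    Finset.sum_nonneg fun j _ => by
      have := A2_nonneg a (rr (j - 1)) (u t)
      have := B2_nonneg a (rr (j - 1)) (u t)
      positivity
  have hE : 0 ≤ energy (u t) + enstrophy (u t) :=
    add_nonneg (energy_nonneg' _) (enstrophy_nonneg' _)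
  have h4 : ∑ j ∈ Finset.Ico 3 (k - 1), √(32 ^ j) * √(L4 a (rr j) (u t))
      + √(∫ x in cube, nsq (u t) x ^ 2) ≤ (CL + CQ) * HH a n k (u t) := by
    unfold HH
    nlinarith [mul_nonneg hCQ.le hS, mul_nonneg hCL.le hE]
  calc CF * (1 + M) * (√((1 / 8) ^ k * A2 a (rr k) (u t)) *
        (∑ j ∈ Finset.Ico 3 (k - 1), √(32 ^ j) * √(L4 a (rr j) (u t))
          + √(∫ x in cube, nsq (u t) x ^ 2)))
      ≤ CF * (1 + M) * (√((1 / 8) ^ k * A2 a (rr k) (u t)) * ((CL + CQ) * HH a n k (u t))) := by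
        refine mul_le_mul_of_nonneg_left (mul_le_mul_of_nonneg_left h4 hX) (by positivity)
    _ = _ := by ring

theorem ct_HH {T : ℝ} {u : ℝ → V → V} {p : ℝ → V → ℝ} (h : IsSol 1 T u p) (a : V) (n k : ℕ) :
    ContinuousOn (fun t => HH a n k (u t)) (Ioo 0 T) := by
  unfold HH
  have h1 : ContinuousOn (fun t => energy (u t)) (Ioo 0 T) :=
    h.energy_continuousOn.mono Ioo_subset_Ico_self
  have h2 : ContinuousOn (fun t => enstrophy (u t)) (Ioo 0 T) :=
    h.enstrophy_continuousOn.mono Ioo_subset_Ico_self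
  refine ContinuousOn.add (continuousOn_finsetSum _ fun j _ => ?_) (h1.add h2)
  exact continuousOn_const.mul (continuousOn_const.mul ((continuousOn_const.mul
    (ct_A2 h a _)).add (ct_B2 h a _)))

/-- The bound for the local energies at the scale `2⁻ᵏ`. -/
noncomputable def LL (ε : ℝ) (n k : ℕ) : ℝ := ε * 2 ^ n / 4 ^ k

theorem LL_nonneg {ε : ℝ} (hε : 0 ≤ ε) (n k : ℕ) : 0 ≤ LL ε n k := by
  unfold LL
  positivity

/-- The hypothesis of the bootstrap argument. -/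
def Boot (ε : ℝ) (t₀ t₁ : ℝ) (a : V) (n : ℕ) (u : ℝ → V → V) : Prop :=
  ∀ k, 2 ≤ k → k ≤ n → ∀ s ∈ Icc t₀ t₁,
    A2 a (rr k) (u s) + ∫ τ in t₀..s, B2 a (rr k) (u τ) ≤ 9 * LL ε n k

theorem int_HH {T : ℝ} {u : ℝ → V → V} {p : ℝ → V → ℝ} (h : IsSol 1 T u p) {ε : ℝ} (hε : 0 ≤ ε)
    {a : V} {n k : ℕ} (hk : 5 ≤ k) (hkn : k ≤ n) {t₀ t₁ : ℝ} (h0 : t₀ ∈ Ioo 0 T)
    (h1 : t₁ ∈ Ioo 0 T) (h01 : t₀ ≤ t₁) (hl : 4 ^ n * (t₁ - t₀) ≤ 1)
    (hB : Boot ε t₀ t₁ a n u) :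
    ∫ s in t₀..t₁, HH a n k (u s) ≤ 216 * (ε * √(2 ^ n) * √(2 ^ k)) + 2 * energy (u 0) := by
  have iA : ∀ j, IntervalIntegrable (fun s => A2 a (rr j) (u s)) volume t₀ t₁ := fun j =>
    ii (ct_A2 h a _) h0 h1
  have iB : ∀ j, IntervalIntegrable (fun s => B2 a (rr j) (u s)) volume t₀ t₁ := fun j =>
    ii (ct_B2 h a _) h0 h1
  have iS : ∀ j ∈ Finset.Ico 3 (k - 1), IntervalIntegrable (fun s => √(32 ^ j) * (√(rr n) *
      (4 ^ n * A2 a (rr (j - 1)) (u s) + B2 a (rr (j - 1)) (u s)))) volume t₀ t₁ := fun j _ =>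
    ((((iA (j - 1)).const_mul _).add (iB (j - 1))).const_mul _).const_mul _
  have iE : IntervalIntegrable (fun s => energy (u s)) volume t₀ t₁ :=
    ii (h.energy_continuousOn.mono Ioo_subset_Ico_self) h0 h1
  have iN : IntervalIntegrable (fun s => enstrophy (u s)) volume t₀ t₁ :=
    ii (h.enstrophy_continuousOn.mono Ioo_subset_Ico_self) h0 h1
  have h4n : (1 : ℝ) ≤ 4 ^ n := one_le_pow₀ (by norm_num)
  have hτ : t₁ - t₀ ≤ 1 := by
    have : 0 ≤ t₁ - t₀ := by linarith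
    nlinarith
  unfold HH
  have iSS : IntervalIntegrable (fun s => ∑ j ∈ Finset.Ico 3 (k - 1), √(32 ^ j) * (√(rr n) *
      (4 ^ n * A2 a (rr (j - 1)) (u s) + B2 a (rr (j - 1)) (u s)))) volume t₀ t₁ := by
    have := IntervalIntegrable.sum (Finset.Ico 3 (k - 1)) iS
    refine this.congr ?_
    intro s _
    simp
  rw [intervalIntegral.integral_add iSS (iE.add iN), intervalIntegral.integral_add iE iN,
    intervalIntegral.integral_finsetSum iS]
  have hE : ∫ s in t₀..t₁, energy (u s) ≤ energy (u 0) := by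
    have e1 : ∫ s in t₀..t₁, energy (u s) ≤ ∫ s in t₀..t₁, energy (u 0) := by
      refine intervalIntegral.integral_mono_on h01 iE intervalIntegrable_const fun s hs => ?_
      exact h.energy_le one_pos ⟨h0.1.le.trans hs.1, hs.2.trans_lt h1.2⟩
    rw [intervalIntegral.integral_const, smul_eq_mul] at e1
    have := energy_nonneg' (u 0)
    nlinarith
  have hN := enst_le h h0 h1 h01
  have hE0 := energy_nonneg' (u 0)
  have key : ∀ j ∈ Finset.Ico 3 (k - 1), ∫ s in t₀..t₁, √(32 ^ j) * (√(rr n) *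
      (4 ^ n * A2 a (rr (j - 1)) (u s) + B2 a (rr (j - 1)) (u s)))
        ≤ 72 * (ε * √(2 ^ n)) * √(2 ^ j) := by
    intro j hj
    rw [Finset.mem_Ico] at hj
    rw [intervalIntegral.integral_const_mul, intervalIntegral.integral_const_mul,
      intervalIntegral.integral_add ((iA (j - 1)).const_mul _) (iB (j - 1)),
      intervalIntegral.integral_const_mul]
    have hb : ∀ s ∈ Icc t₀ t₁, A2 a (rr (j - 1)) (u s) ≤ 9 * LL ε n (j - 1) := by
      intro s hs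
      have e1 := hB (j - 1) (by omega) (by omega) s hs
      have e2 : 0 ≤ ∫ τ in t₀..s, B2 a (rr (j - 1)) (u τ) :=
        intervalIntegral.integral_nonneg hs.1 fun τ _ => B2_nonneg _ _ _
      linarith
    have hA : ∫ s in t₀..t₁, A2 a (rr (j - 1)) (u s) ≤ (t₁ - t₀) * (9 * LL ε n (j - 1)) := by
      have e1 : ∫ s in t₀..t₁, A2 a (rr (j - 1)) (u s) ≤ ∫ s in t₀..t₁, 9 * LL ε n (j - 1) :=
        intervalIntegral.integral_mono_on h01 (iA (j - 1)) intervalIntegrable_const hb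
      rwa [intervalIntegral.integral_const, smul_eq_mul] at e1
    have hBB : ∫ s in t₀..t₁, B2 a (rr (j - 1)) (u s) ≤ 9 * LL ε n (j - 1) := by
      have e1 := hB (j - 1) (by omega) (by omega) t₁ ⟨h01, le_rfl⟩
      have e2 := A2_nonneg a (rr (j - 1)) (u t₁)
      linarith
    have hLL := LL_nonneg hε n (j - 1)
    have h5 : 4 ^ n * (∫ s in t₀..t₁, A2 a (rr (j - 1)) (u s))
        + ∫ s in t₀..t₁, B2 a (rr (j - 1)) (u s) ≤ 18 * LL ε n (j - 1) := by
      have e1 : 4 ^ n * (∫ s in t₀..t₁, A2 a (rr (j - 1)) (u s)) ≤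
          4 ^ n * ((t₁ - t₀) * (9 * LL ε n (j - 1))) :=
        mul_le_mul_of_nonneg_left hA (by positivity)
      have e2 : 4 ^ n * ((t₁ - t₀) * (9 * LL ε n (j - 1))) ≤ 9 * LL ε n (j - 1) := by
        have e3 : 4 ^ n * ((t₁ - t₀) * (9 * LL ε n (j - 1))) =
          (4 ^ n * (t₁ - t₀)) * (9 * LL ε n (j - 1)) := by ring
        rw [e3]
        exact mul_le_of_le_one_left (by positivity) hl
      linarith
    have h6 : √((32 : ℝ) ^ j) = 4 ^ j * √(2 ^ j) := by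
      have e1 : (32 : ℝ) ^ j = (4 ^ j) ^ 2 * 2 ^ j := by
        rw [← pow_mul, mul_comm j 2, pow_mul, ← mul_pow]
        norm_num
      rw [e1, Real.sqrt_mul (by positivity), Real.sqrt_sq (by positivity)]
    have h7 : √(rr n) * 2 ^ n = √(2 ^ n) := by
      have e1 : (2 : ℝ) ^ n = √(2 ^ n) * √(2 ^ n) := (Real.mul_self_sqrt (by positivity)).symm
      have e2 : √(rr n) * √(2 ^ n) = 1 := by
        rw [← Real.sqrt_mul (rr_pos n).le, mul_comm, two_rr, Real.sqrt_one]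
      calc √(rr n) * 2 ^ n = √(rr n) * (√(2 ^ n) * √(2 ^ n)) := by rw [← e1]
        _ = (√(rr n) * √(2 ^ n)) * √(2 ^ n) := by ring
        _ = √(2 ^ n) := by rw [e2, one_mul]
    have h8 : LL ε n (j - 1) * 4 ^ j = 4 * (ε * 2 ^ n) := by
      unfold LL
      obtain ⟨m, rfl⟩ : ∃ m, j = m + 1 := ⟨j - 1, by omega⟩
      have : m + 1 - 1 = m := by omega
      rw [this, pow_succ]
      field_simp
    calc √(32 ^ j) * (√(rr n) * (4 ^ n * (∫ s in t₀..t₁, A2 a (rr (j - 1)) (u s))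
        + ∫ s in t₀..t₁, B2 a (rr (j - 1)) (u s)))
        ≤ √(32 ^ j) * (√(rr n) * (18 * LL ε n (j - 1))) :=
          mul_le_mul_of_nonneg_left (mul_le_mul_of_nonneg_left h5 (Real.sqrt_nonneg _))
            (Real.sqrt_nonneg _)
      _ = 18 * √(2 ^ j) * √(rr n) * (LL ε n (j - 1) * 4 ^ j) := by rw [h6]; ring
      _ = 72 * ε * √(2 ^ j) * (√(rr n) * 2 ^ n) := by rw [h8]; ring
      _ = 72 * (ε * √(2 ^ n)) * √(2 ^ j) := by rw [h7]; ring
  have h9 : ∑ j ∈ Finset.Ico 3 (k - 1), ∫ s in t₀..t₁, √(32 ^ j) * (√(rr n) *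
      (4 ^ n * A2 a (rr (j - 1)) (u s) + B2 a (rr (j - 1)) (u s)))
        ≤ 216 * (ε * √(2 ^ n) * √(2 ^ k)) := by
    refine (Finset.sum_le_sum key).trans ?_
    rw [← Finset.mul_sum]
    have h10 : ∑ j ∈ Finset.Ico 3 (k - 1), √((2 : ℝ) ^ j) ≤ 3 * √(2 ^ k) := by
      refine le_trans ?_ (sum_two k)
      refine Finset.sum_le_sum_of_subset_of_nonneg (fun j hj => ?_) fun _ _ _ => Real.sqrt_nonneg _
      rw [Finset.mem_Ico] at hj
      rw [Finset.mem_range]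
      omega
    calc 72 * (ε * √(2 ^ n)) * ∑ j ∈ Finset.Ico 3 (k - 1), √((2 : ℝ) ^ j)
        ≤ 72 * (ε * √(2 ^ n)) * (3 * √(2 ^ k)) := mul_le_mul_of_nonneg_left h10 (by positivity)
      _ = _ := by ring
  linarith

end Pool.Agent.H4NS
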