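import Pool.Agent.H459R3.NS.Sob

/-!
Weak `Lᵠ` bounds and integrals of the square over small sets.
-/

open MeasureTheory Set Metric Filter Topology
open scoped ContDiff ENNReal

namespace Pool.Agent.H4NS

open H459R3.NS

/-- The square over a small set. -/
theorem weak_int {q A m : ℝ} (hq : 2 < q) (hA : 0 < A) (hm : 0 < m) {f : V → ℝ}
    (hf : Continuous f) (hf0 : ∀ x, 0 ≤ f x) {F : Set V}
    (hFm : volume F ≤ ENNReal.ofReal m)
    (h : ∀ s : ℝ, 0 < s → volume ({x | s < f x} ∩ F) ≤ ENNReal.ofReal ((A / s) ^ q)) :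
    ∫⁻ x in F, ENNReal.ofReal (f x ^ 2) ≤
      ENNReal.ofReal ((1 + 2 / (q - 2)) * (A ^ 2 * m ^ (1 - 2 / q))) := by
  have hq0 : 0 < q := by linarith
  have h1 := lintegral_rpow_eq_lintegral_meas_lt_mul (volume.restrict F) (f := f)
    (Eventually.of_forall hf0) hf.aemeasurable (p := 2) (by norm_num)
  have e1 : ∫⁻ x in F, ENNReal.ofReal (f x ^ 2) = ∫⁻ x in F, ENNReal.ofReal (f x ^ (2 : ℝ)) := by
    refine lintegral_congr fun x => ?_
    rw [Real.rpow_two]
  rw [e1, h1]
  have hmeas : ∀ s : ℝ, MeasurableSet {x : V | s < f x} := fun s =>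
    (isOpen_lt continuous_const hf).measurableSet
  set l : ℝ := A * m ^ (-(1 / q)) with hl
  have hl0 : 0 < l := by positivity
  have hsplit : Ioi (0 : ℝ) = Ioc 0 l ∪ Ioi l := (Ioc_union_Ioi_eq_Ioi hl0.le).symm
  have hb1 : ∫⁻ t in Ioc 0 l, (volume.restrict F) {a | t < f a} * ENNReal.ofReal (t ^ ((2 : ℝ) - 1))
      ≤ ENNReal.ofReal (m * (l ^ 2 / 2)) := by
    have e2 : ∫⁻ t in Ioc 0 l, (volume.restrict F) {a | t < f a} *
        ENNReal.ofReal (t ^ ((2 : ℝ) - 1)) ≤ ∫⁻ t in Ioc 0 l, ENNReal.ofReal (m * t) := by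
      refine setLIntegral_mono' measurableSet_Ioc fun t ht => ?_
      have e3 : (volume.restrict F) {a | t < f a} ≤ ENNReal.ofReal m := by
        rw [Measure.restrict_apply (hmeas t)]
        exact (measure_mono inter_subset_right).trans hFm
      have e4 : t ^ ((2 : ℝ) - 1) = t := by norm_num
      rw [e4, ENNReal.ofReal_mul hm.le]
      exact mul_le_mul_left e3 _
    refine e2.trans (le_of_eq ?_)
    have hint : IntegrableOn (fun t : ℝ => m * t) (Ioc 0 l) :=
      (Continuous.integrableOn_Ioc (by fun_prop))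
    rw [← ofReal_integral_eq_lintegral_ofReal hint
      ((ae_restrict_iff' measurableSet_Ioc).2 (Eventually.of_forall fun t ht =>
        mul_nonneg hm.le ht.1.le))]
    congr 1
    rw [← intervalIntegral.integral_of_le hl0.le, intervalIntegral.integral_const_mul, integral_id]
    ring
  have hb2 : ∫⁻ t in Ioi l, (volume.restrict F) {a | t < f a} * ENNReal.ofReal (t ^ ((2 : ℝ) - 1))
      ≤ ENNReal.ofReal (A ^ q * (l ^ (2 - q) / (q - 2))) := by
    have e2 : ∫⁻ t in Ioi l, (volume.restrict F) {a | t < f a} *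
        ENNReal.ofReal (t ^ ((2 : ℝ) - 1)) ≤ ∫⁻ t in Ioi l, ENNReal.ofReal (A ^ q * t ^ (1 - q)) := by
      refine setLIntegral_mono' measurableSet_Ioi fun t ht => ?_
      have ht0 : 0 < t := hl0.trans ht
      have e3 : (volume.restrict F) {a | t < f a} ≤ ENNReal.ofReal ((A / t) ^ q) := by
        rw [Measure.restrict_apply (hmeas t)]
        exact h t ht0
      refine (mul_le_mul_left e3 _).trans (le_of_eq ?_)
      rw [← ENNReal.ofReal_mul (by positivity)]
      congr 1
      rw [Real.div_rpow hA.le ht0.le]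
      have e4 : t ^ (1 - q) = t ^ ((2 : ℝ) - 1) / t ^ q := by
        rw [← Real.rpow_sub ht0]
        congr 1
        ring
      rw [e4]
      ring
    refine e2.trans (le_of_eq ?_)
    have hint : IntegrableOn (fun t : ℝ => A ^ q * t ^ (1 - q)) (Ioi l) :=
      (integrableOn_Ioi_rpow_of_lt (by linarith) hl0).const_mul _
    rw [← ofReal_integral_eq_lintegral_ofReal hint
      ((ae_restrict_iff' measurableSet_Ioi).2 (Eventually.of_forall fun t ht => by
        have : 0 < t := hl0.trans ht
        positivity))]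
    congr 1
    rw [integral_const_mul, integral_Ioi_rpow_of_lt (by linarith) hl0]
    congr 1
    have e5 : 1 - q + 1 = 2 - q := by ring
    rw [e5, neg_div, ← div_neg, neg_sub]
  have hsum : ∫⁻ t in Ioi 0, (volume.restrict F) {a | t < f a} *
      ENNReal.ofReal (t ^ ((2 : ℝ) - 1)) ≤
      ENNReal.ofReal (m * (l ^ 2 / 2)) + ENNReal.ofReal (A ^ q * (l ^ (2 - q) / (q - 2))) := by
    rw [hsplit]
    exact (lintegral_union_le _ _ _).trans (add_le_add hb1 hb2)
  refine (mul_le_mul_right hsum _).trans (le_of_eq ?_)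
  rw [← ENNReal.ofReal_add (by positivity) (by
    have : 0 < q - 2 := by linarith
    positivity), ← ENNReal.ofReal_mul (by norm_num)]
  congr 1
  -- the numbers
  have e6 : m * l ^ 2 = A ^ 2 * m ^ (1 - 2 / q) := by
    have e7 : (m ^ (-(1 / q))) ^ 2 = m ^ (-(2 / q)) := by
      rw [← Real.rpow_natCast, ← Real.rpow_mul hm.le]
      congr 1
      push_cast
      ring
    have e8 : m ^ (1 - 2 / q) = m * m ^ (-(2 / q)) := by
      rw [sub_eq_add_neg, Real.rpow_add hm, Real.rpow_one]
    rw [hl, mul_pow, e7, e8]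
    ring
  have e9 : A ^ q * l ^ (2 - q) = A ^ 2 * m ^ (1 - 2 / q) := by
    have e10 : l ^ (2 - q) = A ^ (2 - q) * m ^ (1 - 2 / q) := by
      rw [hl, Real.mul_rpow hA.le (by positivity), ← Real.rpow_mul hm.le]
      congr 2
      field_simp
      ring
    have e11 : A ^ q * A ^ (2 - q) = A ^ 2 := by
      rw [← Real.rpow_add hA, ← Real.rpow_two]
      congr 1
      ring
    rw [e10, ← mul_assoc, e11]
  have hq2 : q - 2 ≠ 0 := by linarith
  have e12 : 2 * (m * (l ^ 2 / 2) + A ^ q * (l ^ (2 - q) / (q - 2))) =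
      m * l ^ 2 + 2 * (A ^ q * l ^ (2 - q)) / (q - 2) := by ring
  rw [e12, e6, e9]
  field_simp

/-- Distribution functions on the box. -/
theorem box_meas {f : V → ℝ} (hf : Continuous f) (hp : Per f) (s : ℝ) :
    volume ({x | s < f x} ∩ box) ≤ 27 * volume ({x | s < f x} ∩ cube) := by
  have hmeas : MeasurableSet {x : V | s < f x} := (isOpen_lt continuous_const hf).measurableSet
  have h1 := lintegral_box_le (h := {x : V | s < f x}.indicator fun _ => (1 : ℝ≥0∞))
    (measurable_const.indicator hmeas) (by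
      intro i x
      by_cases hx : s < f x
      · rw [indicator_of_mem (show x + Pi.single i 1 ∈ {x | s < f x} by
          show s < f (x + Pi.single i 1)
          rw [hp i x]; exact hx), indicator_of_mem (show x ∈ {x | s < f x} from hx)]
      · rw [indicator_of_notMem (show x + Pi.single i 1 ∉ {x | s < f x} by
          show ¬ s < f (x + Pi.single i 1)
          rw [hp i x]; exact hx), indicator_of_notMem (show x ∉ {x | s < f x} from hx)])
  rw [lintegral_indicator_const hmeas, lintegral_indicator_const hmeas, one_mul, one_mul,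
    Measure.restrict_apply hmeas, Measure.restrict_apply hmeas] at h1
  exact h1

end Pool.Agent.H4NS
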