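import Pool.Agent.H4NS.Crit
import Pool.Agent.H4NS.Weak

/-!
Counting singular points (viscosity one).
-/

open MeasureTheory Set Metric Filter Topology
open scoped ContDiff ENNReal

namespace Pool.Agent.H4NS

open H459R3.NS W221.NS
open Pool.Agent.W386.MD (cont_nsq cont_adv nsq_nonneg cs iob rr_pos rr_anti adv_zero A2_mono)

theorem alg {q D a : ℝ} {n k : ℕ} (hq : 3 ≤ q) (hkn : k ≤ n) (hD : 0 < D) (ha : 0 < a)
    (h : a * (2 : ℝ) ^ (n + k) ≤ D * ((4 : ℝ) ^ n) ^ (1 - 3 / q) * a ^ (1 - 2 / q)) :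
    a * 8 ^ k ≤ D ^ (q / 2) * ((2 : ℝ) ^ (-(3 - q / 2))) ^ (n - k) := by
  have hq0 : 0 < q := by linarith
  have e0 : a = a ^ (2 / q) * a ^ (1 - 2 / q) := by
    rw [← Real.rpow_add ha]
    have : 2 / q + (1 - 2 / q) = 1 := by ring
    rw [this, Real.rpow_one]
  have h1 : a ^ (2 / q) * (2 : ℝ) ^ (n + k) ≤ D * ((4 : ℝ) ^ n) ^ (1 - 3 / q) := by
    have h2 : (a ^ (2 / q) * (2 : ℝ) ^ (n + k)) * a ^ (1 - 2 / q) ≤
        (D * ((4 : ℝ) ^ n) ^ (1 - 3 / q)) * a ^ (1 - 2 / q) := by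
      calc (a ^ (2 / q) * (2 : ℝ) ^ (n + k)) * a ^ (1 - 2 / q)
          = (a ^ (2 / q) * a ^ (1 - 2 / q)) * (2 : ℝ) ^ (n + k) := by ring
        _ = a * (2 : ℝ) ^ (n + k) := by rw [← e0]
        _ ≤ _ := h
    exact le_of_mul_le_mul_right h2 (by positivity)
  have h2 := Real.rpow_le_rpow (by positivity) h1 (by positivity : 0 ≤ q / 2)
  rw [Real.mul_rpow (by positivity) (by positivity), Real.mul_rpow (by positivity) (by positivity),
    ← Real.rpow_mul ha.le] at h2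
  have e1 : 2 / q * (q / 2) = 1 := by field_simp
  rw [e1, Real.rpow_one] at h2
  have e2 : ((2 : ℝ) ^ (n + k)) ^ (q / 2) = (2 : ℝ) ^ (((n : ℝ) + k) * (q / 2)) := by
    rw [← Real.rpow_natCast, ← Real.rpow_mul (by norm_num)]
    push_cast
    rfl
  have e3 : (((4 : ℝ) ^ n) ^ (1 - 3 / q)) ^ (q / 2) = (2 : ℝ) ^ ((n : ℝ) * (q - 3)) := by
    have e4 : (4 : ℝ) ^ n = (2 : ℝ) ^ (2 * (n : ℝ)) := by
      rw [Real.rpow_mul (by norm_num), Real.rpow_natCast, Real.rpow_two]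
      norm_num
    rw [e4, ← Real.rpow_mul (by positivity), ← Real.rpow_mul (by positivity)]
    congr 1
    field_simp
  have e5 : ((2 : ℝ) ^ (-(3 - q / 2))) ^ (n - k) = (2 : ℝ) ^ (-(3 - q / 2) * ((n : ℝ) - k)) := by
    rw [← Real.rpow_natCast ((2 : ℝ) ^ (-(3 - q / 2))) (n - k), ← Real.rpow_mul (by norm_num),
      Nat.cast_sub hkn]
  have e6 : (8 : ℝ) ^ k = (2 : ℝ) ^ (3 * (k : ℝ)) := by
    rw [Real.rpow_mul (by norm_num), Real.rpow_natCast]
    norm_num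
  rw [e2, e3] at h2
  rw [e5, e6]
  have e7 : (2 : ℝ) ^ (3 * (k : ℝ)) =
      (2 : ℝ) ^ (((n : ℝ) + k) * (q / 2)) * (2 : ℝ) ^ (3 * (k : ℝ) - ((n : ℝ) + k) * (q / 2)) := by
    rw [← Real.rpow_add (by norm_num)]
    congr 1
    ring
  have e8 : (2 : ℝ) ^ (-(3 - q / 2) * ((n : ℝ) - k)) =
      (2 : ℝ) ^ ((n : ℝ) * (q - 3)) * (2 : ℝ) ^ (3 * (k : ℝ) - ((n : ℝ) + k) * (q / 2)) := by
    rw [← Real.rpow_add (by norm_num)]
    congr 1
    ring
  rw [e7, e8, ← mul_assoc, ← mul_assoc]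
  exact mul_le_mul_of_nonneg_right h2 (by positivity)

/-- The weak `Lᵠ` quasinorm of `|v|` over the set `U` is at most `A`: the set of the points of `U`
where `|v|` is larger than `s` has volume at most `(A / s) ^ q`. -/
def WeakLe (q : ℝ) (U : Set V) (A : ℝ) (v : V → V) : Prop :=
  ∀ s : ℝ, 0 < s →
    volume {x ∈ U | s < √(∑ i, v x i ^ 2)} ≤ ENNReal.ofReal ((A / s) ^ q)

/-- The energy in disjoint balls of a given scale. -/
theorem balls_le {q A : ℝ} (hq : 3 ≤ q) (hA : 0 < A) {v : V → V} (hv : ContDiff ℝ ∞ v)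
    {U : Set V} (hw : WeakLe q U A v) {k : ℕ} {S : Finset V} (hS : S.Nonempty)
    (hU : ∀ x ∈ S, ball x (rr k) ⊆ U)
    (hsep : ∀ x ∈ S, ∀ y ∈ S, x ≠ y → 2 * rr k ≤ dist x y) {L : ℝ}
    (hL : ∀ x ∈ S, L ≤ A2 x (rr k) v) :
    S.card * L ≤ 3 * (A ^ 2 * (S.card * (8 / 8 ^ k)) ^ (1 - 2 / q)) := by
  have hr := rr_pos k
  have hcard : (0 : ℝ) < S.card := by exact_mod_cast hS.card_pos
  set m : ℝ := S.card * (8 / 8 ^ k) with hm
  have hm0 : 0 < m := by positivity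
  set F : Set V := ⋃ x ∈ S, ball x (rr k) with hF
  have hdisj : (S : Set V).PairwiseDisjoint (fun x => ball x (rr k)) := by
    intro x hx y hy hxy
    exact ball_disjoint_ball (by have := hsep x hx y hy hxy; linarith)
  have hvol : volume F ≤ ENNReal.ofReal m := by
    refine (measure_biUnion_finset_le S _).trans (le_of_eq ?_)
    have e1 : ∀ x ∈ S, volume (ball x (rr k)) = ENNReal.ofReal (8 / 8 ^ k) := by
      intro x _
      rw [Real.volume_pi_ball x hr]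
      congr 1
      have e2 : rr k ^ 3 = 1 / 8 ^ k := by
        rw [rr_val, ← pow_mul, mul_comm k 3, pow_mul, ← one_div_pow]
        norm_num
      simp only [Fintype.card_fin]
      rw [mul_pow, e2]
      ring
    rw [Finset.sum_congr rfl e1, Finset.sum_const, nsmul_eq_mul, hm,
      ENNReal.ofReal_mul hcard.le, ENNReal.ofReal_natCast]
  have hFU : F ⊆ U := by
    intro y hy
    rw [hF] at hy
    simp only [mem_iUnion] at hy
    obtain ⟨x, hx, hy⟩ := hy
    exact hU x hx hy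
  set f : V → ℝ := fun x => √(nsq v x) with hf
  have hfc : Continuous f := (cont_nsq hv).sqrt
  have hweak : ∀ s : ℝ, 0 < s → volume ({x | s < f x} ∩ F) ≤ ENNReal.ofReal ((A / s) ^ q) := by
    intro s hs
    refine (measure_mono ?_).trans (hw s hs)
    intro x hx
    exact ⟨hFU hx.2, hx.1⟩
  have h1 := weak_int (q := q) (A := A) (m := m) (by linarith) hA hm0 hfc
    (fun x => Real.sqrt_nonneg _) hvol hweak
  have h2 : ENNReal.ofReal (S.card * L) ≤ ∫⁻ x in F, ENNReal.ofReal (f x ^ 2) := by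
    rw [hF, lintegral_biUnion_finset hdisj (fun x _ => measurableSet_ball)]
    have e1 : ∀ x ∈ S, ENNReal.ofReal L ≤ ∫⁻ y in ball x (rr k), ENNReal.ofReal (f y ^ 2) := by
      intro x hx
      have e2 : ∫⁻ y in ball x (rr k), ENNReal.ofReal (f y ^ 2) =
          ENNReal.ofReal (A2 x (rr k) v) := by
        unfold A2
        rw [ofReal_integral_eq_lintegral_ofReal (iob (cont_nsq hv) x _)
          (Eventually.of_forall fun y => nsq_nonneg v y)]
        refine lintegral_congr fun y => ?_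
        rw [hf, Real.sq_sqrt (nsq_nonneg v y)]
      rw [e2]
      exact ENNReal.ofReal_le_ofReal (hL x hx)
    calc ENNReal.ofReal (S.card * L) = ∑ _x ∈ S, ENNReal.ofReal L := by
          rw [Finset.sum_const, nsmul_eq_mul, ENNReal.ofReal_mul hcard.le, ENNReal.ofReal_natCast]
      _ ≤ _ := Finset.sum_le_sum e1
  have h3 := h2.trans h1
  rw [ENNReal.ofReal_le_ofReal_iff (by
    have : 0 < q - 2 := by linarith
    positivity)] at h3
  refine h3.trans ?_
  have e1 : 1 + 2 / (q - 2) ≤ 3 := by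
    have : 2 / (q - 2) ≤ 2 := by
      rw [div_le_iff₀ (by linarith)]
      linarith
    linarith
  exact mul_le_mul_of_nonneg_right e1 (by positivity)

theorem sep_ex {S : Finset V} {U : Set V} (hU : IsOpen U) (hS : ∀ x ∈ S, x ∈ U) :
    ∃ δ : ℝ, 0 < δ ∧ (∀ x ∈ S, ∀ y ∈ S, x ≠ y → 2 * δ ≤ dist x y) ∧
      ∀ x ∈ S, ball x δ ⊆ U := by
  obtain ⟨δ₁, hδ₁, h₁⟩ : ∃ δ : ℝ, 0 < δ ∧ ∀ x ∈ S, ∀ y ∈ S, x ≠ y → 2 * δ ≤ dist x y := by
    by_cases h : S.offDiag.Nonempty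
    · obtain ⟨z, hz, hm⟩ := Finset.exists_min_image S.offDiag (fun z => dist z.1 z.2) h
      rw [Finset.mem_offDiag] at hz
      refine ⟨dist z.1 z.2 / 2, by have := dist_pos.2 hz.2.2; linarith, fun x hx y hy hxy => ?_⟩
      have := hm (x, y) (Finset.mem_offDiag.2 ⟨hx, hy, hxy⟩)
      simp only at this
      linarith
    · refine ⟨1, one_pos, fun x hx y hy hxy => ?_⟩
      exact absurd ⟨(x, y), Finset.mem_offDiag.2 ⟨hx, hy, hxy⟩⟩ h
  have h2 : ∀ x ∈ S, ∃ r : ℝ, 0 < r ∧ ball x r ⊆ U := fun x hx =>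
    Metric.isOpen_iff.1 hU x (hS x hx)
  choose! r hr0 hr using h2
  obtain ⟨δ₂, hδ₂, h₂⟩ : ∃ δ : ℝ, 0 < δ ∧ ∀ x ∈ S, δ ≤ r x := by
    by_cases h : S.Nonempty
    · obtain ⟨z, hz, hm⟩ := Finset.exists_min_image S r h
      exact ⟨r z, hr0 z hz, hm⟩
    · refine ⟨1, one_pos, fun x hx => ?_⟩
      exact absurd ⟨x, hx⟩ h
  refine ⟨min δ₁ δ₂, lt_min hδ₁ hδ₂, fun x hx y hy hxy => ?_, fun x hx => ?_⟩
  · have e1 := h₁ x hx y hy hxy
    have e2 := min_le_left δ₁ δ₂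
    linarith
  · exact (ball_subset_ball ((min_le_right _ _).trans (h₂ x hx))).trans (hr x hx)

/-- Counting, viscosity one. -/
theorem count1 {q : ℝ} (hq : 3 ≤ q) (hq6 : q < 6) : ∃ C : ℝ, 0 < C ∧
    ∀ (T : ℝ) (u : ℝ → V → V) (p : ℝ → V → ℝ) (M : ℝ) (U : Set V), 0 < T → 0 < M →
      IsSol 1 T u p → IsOpen U →
      (∃ᶠ t in 𝓝[<] T, WeakLe q U (M * (T - t) ^ (-((1 - 3 / q) / 2))) (u t)) →
      ∀ S : Finset V, (∀ x ∈ S, x ∈ U ∧ Sing T u x) → (S.card : ℝ) ≤ C * M ^ q := by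
  obtain ⟨ε, l, K, hε, hl, hl1, hK, hcrit⟩ := crit
  have hq0 : 0 < q := by linarith
  obtain ⟨ρ, hρ⟩ : ∃ ρ : ℝ, ρ = (2 : ℝ) ^ (-(3 - q / 2)) := ⟨_, rfl⟩
  have hρ0 : 0 < ρ := by rw [hρ]; positivity
  have hρ1 : ρ < 1 := by
    rw [hρ]
    exact Real.rpow_lt_one_of_one_lt_of_neg (by norm_num) (by linarith)
  obtain ⟨c, hc⟩ : ∃ c : ℝ, c = 24 / ε * (l / 4) ^ (-(1 - 3 / q)) := ⟨_, rfl⟩
  have hc0 : 0 < c := by rw [hc]; positivity
  refine ⟨c ^ (q / 2) / (1 - ρ), div_pos (by positivity) (by linarith), ?_⟩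
  intro T u p M U hT hM h hUo hfreq S hS
  obtain ⟨δ, hδ, hsep, hbU⟩ := sep_ex hUo fun x hx => (hS x hx).1
  have hen := energy_nonneg' (u 0)
  -- the smallest admissible scale
  obtain ⟨kδ, hkδ⟩ : ∃ k : ℕ, rr k < δ := by
    have := exists_pow_lt_of_lt_one hδ (by norm_num : (1 / 2 : ℝ) < 1)
    exact this
  obtain ⟨n₀, hn₀⟩ : ∃ n₀ : ℕ, 5 ≤ n₀ ∧ K * (1 + energy (u 0)) ^ 2 ≤ 2 ^ n₀ ∧
      energy (u 0) * 4 ^ kδ ≤ ε * 2 ^ n₀ := by
    obtain ⟨a, ha⟩ := pow_unbounded_of_one_lt (K * (1 + energy (u 0)) ^ 2)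
      (by norm_num : (1 : ℝ) < 2)
    obtain ⟨b, hb⟩ := pow_unbounded_of_one_lt (energy (u 0) * 4 ^ kδ / ε)
      (by norm_num : (1 : ℝ) < 2)
    refine ⟨5 + a + b, by omega, ?_, ?_⟩
    · refine ha.le.trans (pow_le_pow_right₀ (by norm_num) (by omega))
    · have h1 : energy (u 0) * 4 ^ kδ / ε ≤ 2 ^ (5 + a + b) :=
        hb.le.trans (pow_le_pow_right₀ (by norm_num) (by omega))
      rw [div_le_iff₀ hε] at h1
      linarith
  -- the time
  have hX0 : 0 < l / 4 ^ n₀ := by positivity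
  have hev : ∀ᶠ t in 𝓝[<] T, t ∈ Ioo 0 T ∧ T - t ≤ l / 4 ^ n₀ := by
    have h1 : Ioo (max 0 (T - l / 4 ^ n₀)) T ∈ 𝓝[<] T :=
      Ioo_mem_nhdsLT (max_lt hT (by linarith))
    filter_upwards [h1] with t ht
    have h2 := le_max_left 0 (T - l / 4 ^ n₀)
    have h3 := le_max_right 0 (T - l / 4 ^ n₀)
    exact ⟨⟨h2.trans_lt ht.1, ht.2⟩, by linarith [ht.1]⟩
  obtain ⟨t, hw, ht, htX⟩ := (hfreq.and_eventually hev).exists
  set X : ℝ := T - t with hX
  have hXpos : 0 < X := by rw [hX]; linarith [ht.2]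
  obtain ⟨n, hn1, hn2⟩ : ∃ n : ℕ, (4 : ℝ) ^ n ≤ l / X ∧ l / X < 4 ^ (n + 1) := by
    refine exists_nat_pow_near ?_ (by norm_num)
    rw [one_le_div hXpos]
    refine htX.trans ?_
    rw [div_le_iff₀ (by positivity)]
    exact le_mul_of_one_le_right hl.le (one_le_pow₀ (by norm_num))
  have hn4 : 4 ^ n * X ≤ l := by rwa [le_div_iff₀ hXpos] at hn1
  have hn5 : l / 4 < 4 ^ n * X := by
    rw [div_lt_iff₀ hXpos, pow_succ] at hn2
    linarith
  have hnn : n₀ ≤ n := by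
    have h1 : (4 : ℝ) ^ n₀ ≤ l / X := by
      rw [le_div_iff₀ hXpos]
      rw [le_div_iff₀ (by positivity)] at htX
      linarith
    have h2 := (pow_lt_pow_iff_right₀ (by norm_num : (1 : ℝ) < 4)).1 (h1.trans_lt hn2)
    omega
  have hn5' : 5 ≤ n := hn₀.1.trans hnn
  have h2nn : (2 : ℝ) ^ n₀ ≤ 2 ^ n := pow_le_pow_right₀ (by norm_num) hnn
  -- the scale of each point
  have hsc : ∀ x ∈ S, ∃ k, 5 ≤ k ∧ k ≤ n ∧ LL ε n k < A2 x (rr k) (u t) := by
    intro x hx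
    by_contra hcon
    push Not at hcon
    exact hcrit T u p h n t x hn5' ht hn5 hn4 (hn₀.2.1.trans h2nn) hcon (hS x hx).2
  choose! κ hκ using hsc
  have hκδ : ∀ x ∈ S, rr (κ x) < δ := by
    intro x hx
    obtain ⟨h1, h2, h3⟩ := hκ x hx
    by_contra hcon
    rw [not_lt] at hcon
    have h4 : κ x ≤ kδ := by
      by_contra h5
      rw [not_le] at h5
      exact absurd ((rr_anti h5.le).trans_lt hkδ) (not_lt.2 hcon)
    have h5 : A2 x (rr (κ x)) (u t) ≤ energy (u 0) :=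
      (A2_le_energy (spv_u h ht) x ((rr_anti h1).trans (by norm_num [rr]))).trans
        (h.energy_le one_pos (Ioo_sub ht))
    have h6 : energy (u 0) ≤ LL ε n (κ x) := by
      unfold LL
      rw [le_div_iff₀ (by positivity)]
      have h7 : (4 : ℝ) ^ κ x ≤ 4 ^ kδ := pow_le_pow_right₀ (by norm_num) h4
      calc energy (u 0) * 4 ^ κ x ≤ energy (u 0) * 4 ^ kδ := mul_le_mul_of_nonneg_left h7 hen
        _ ≤ ε * 2 ^ n₀ := hn₀.2.2
        _ ≤ ε * 2 ^ n := mul_le_mul_of_nonneg_left h2nn hε.le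
    linarith
  -- the bound for the weak norm
  set A : ℝ := M * X ^ (-((1 - 3 / q) / 2)) with hA
  have hA0 : 0 < A := by positivity
  have h3q : 0 ≤ 1 - 3 / q := by
    rw [sub_nonneg, div_le_one hq0]
    exact hq
  have hA2 : A ^ 2 ≤ M ^ 2 * ((l / 4) ^ (-(1 - 3 / q)) * ((4 : ℝ) ^ n) ^ (1 - 3 / q)) := by
    have e1 : A ^ 2 = M ^ 2 * X ^ (-(1 - 3 / q)) := by
      rw [hA, mul_pow]
      congr 1
      rw [← Real.rpow_natCast, ← Real.rpow_mul hXpos.le]
      congr 1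
      push_cast
      ring
    rw [e1]
    refine mul_le_mul_of_nonneg_left ?_ (sq_nonneg _)
    have e2 : (l / 4) / 4 ^ n ≤ X := by
      rw [div_le_iff₀ (by positivity)]
      linarith
    have e3 : X ^ (-(1 - 3 / q)) ≤ ((l / 4) / 4 ^ n) ^ (-(1 - 3 / q)) :=
      Real.rpow_le_rpow_of_nonpos (by positivity) e2 (by linarith)
    refine e3.trans (le_of_eq ?_)
    rw [Real.div_rpow (by positivity) (by positivity), Real.rpow_neg (x := (4 : ℝ) ^ n)
      (by positivity), div_inv_eq_mul]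
  -- each scale
  have hscale : ∀ k ∈ Finset.Icc 5 n, ((S.filter fun x => κ x = k).card : ℝ) ≤
      c ^ (q / 2) * M ^ q * ρ ^ (n - k) := by
    intro k hk
    rw [Finset.mem_Icc] at hk
    by_cases hne : (S.filter fun x => κ x = k).Nonempty
    · set S' := S.filter fun x => κ x = k with hS'
      have hmem : ∀ x ∈ S', x ∈ S ∧ κ x = k := fun x hx => Finset.mem_filter.1 hx
      have hcard : (0 : ℝ) < S'.card := by exact_mod_cast hne.card_pos
      obtain ⟨x₀, hx₀⟩ := hne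
      have hrk : rr k < δ := by
        have h1 := hκδ x₀ (hmem x₀ hx₀).1
        rwa [(hmem x₀ hx₀).2] at h1
      have h1 := balls_le hq hA0 (spv_u h ht).1 hw ⟨x₀, hx₀⟩
        (fun x hx => (ball_subset_ball hrk.le).trans (hbU x (hmem x hx).1))
        (fun x hx y hy hxy => by
          have := hsep x (hmem x hx).1 y (hmem y hy).1 hxy
          linarith) (L := LL ε n k) (fun x hx => by
          have h2 := (hκ x (hmem x hx).1).2.2
          rw [(hmem x hx).2] at h2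
          exact h2.le)
      set m : ℝ := S'.card * (8 / 8 ^ k) with hm
      have hm0 : 0 < m := by positivity
      have hDp : 0 < c * M ^ 2 := by positivity
      have h2 : m * (2 : ℝ) ^ (n + k) ≤
          (c * M ^ 2) * ((4 : ℝ) ^ n) ^ (1 - 3 / q) * m ^ (1 - 2 / q) := by
        have e1 : m * (2 : ℝ) ^ (n + k) = 8 / ε * (S'.card * LL ε n k) := by
          unfold LL
          rw [hm, pow_add]
          have e2 : (8 : ℝ) ^ k = 2 ^ k * 4 ^ k := by rw [← mul_pow]; norm_num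
          rw [e2]
          field_simp
        rw [e1]
        calc 8 / ε * (S'.card * LL ε n k)
            ≤ 8 / ε * (3 * (A ^ 2 * m ^ (1 - 2 / q))) :=
              mul_le_mul_of_nonneg_left h1 (by positivity)
          _ = 24 / ε * (A ^ 2 * m ^ (1 - 2 / q)) := by ring
          _ ≤ 24 / ε * ((M ^ 2 * ((l / 4) ^ (-(1 - 3 / q)) * ((4 : ℝ) ^ n) ^ (1 - 3 / q))) *
              m ^ (1 - 2 / q)) := by
              refine mul_le_mul_of_nonneg_left (mul_le_mul_of_nonneg_right hA2 ?_) ?_ <;> positivity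
          _ = _ := by rw [hc]; ring
      have h3 := alg hq hk.2 hDp hm0 h2
      rw [← hρ] at h3
      have e3 : m * 8 ^ k = 8 * S'.card := by
        rw [hm]
        field_simp
      rw [e3] at h3
      have e4 : (c * M ^ 2) ^ (q / 2) = c ^ (q / 2) * M ^ q := by
        rw [Real.mul_rpow hc0.le (by positivity), ← Real.rpow_natCast M 2, ← Real.rpow_mul hM.le]
        congr 2
        push_cast
        field_simp
      rw [e4] at h3
      linarith
    · rw [Finset.not_nonempty_iff_eq_empty] at hne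
      rw [hne, Finset.card_empty, Nat.cast_zero]
      positivity
  -- the sum
  have hsum : (S.card : ℝ) = ∑ k ∈ Finset.Icc 5 n, ((S.filter fun x => κ x = k).card : ℝ) := by
    have e1 : S.card = ∑ k ∈ Finset.Icc 5 n, (S.filter fun x => κ x = k).card :=
      Finset.card_eq_sum_card_fiberwise fun x hx =>
        Finset.mem_coe.2 (Finset.mem_Icc.2 ⟨(hκ x hx).1, (hκ x hx).2.1⟩)
    rw [e1]
    push_cast
    rfl
  rw [hsum]
  refine (Finset.sum_le_sum hscale).trans ?_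
  rw [← Finset.mul_sum]
  have hgeo : ∑ k ∈ Finset.Icc 5 n, ρ ^ (n - k) ≤ 1 / (1 - ρ) := by
    have e1 : ∑ k ∈ Finset.Icc 5 n, ρ ^ (n - k) ≤ ∑ k ∈ Finset.range (n + 1), ρ ^ (n - k) := by
      refine Finset.sum_le_sum_of_subset_of_nonneg (fun k hk => ?_) fun _ _ _ => by positivity
      rw [Finset.mem_Icc] at hk
      rw [Finset.mem_range]
      omega
    have e2 : ∑ k ∈ Finset.range (n + 1), ρ ^ (n - k) = ∑ k ∈ Finset.range (n + 1), ρ ^ k := by
      rw [← Finset.sum_range_reflect (fun k => ρ ^ k) (n + 1)]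
      refine Finset.sum_congr rfl fun k hk => ?_
      congr 1
    have e3 : ∑ k ∈ Finset.range (n + 1), ρ ^ k ≤ 1 / (1 - ρ) := by
      rw [geom_sum_eq hρ1.ne, le_div_iff₀ (by linarith)]
      have e4 : (ρ ^ (n + 1) - 1) / (ρ - 1) * (1 - ρ) = 1 - ρ ^ (n + 1) := by
        have : ρ - 1 ≠ 0 := by linarith
        field_simp
        ring
      rw [e4]
      have : 0 < ρ ^ (n + 1) := by positivity
      linarith
    rw [e2] at e1
    exact e1.trans e3
  calc c ^ (q / 2) * M ^ q * ∑ k ∈ Finset.Icc 5 n, ρ ^ (n - k)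
      ≤ c ^ (q / 2) * M ^ q * (1 / (1 - ρ)) := mul_le_mul_of_nonneg_left hgeo (by positivity)
    _ = c ^ (q / 2) / (1 - ρ) * M ^ q := by ring

end Pool.Agent.H4NS
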