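import Pool.Agent.H4NS.Local

/-!
The criterion: small local energies at one time exclude a singular point.
-/

open MeasureTheory Set Metric Filter Topology
open scoped ContDiff ENNReal

namespace Pool.Agent.H4NS

open H459R3.NS W221.NS
open Pool.Agent.W386.MD (cont_nsq cont_adv nsq_nonneg cs iob rr_pos rr_anti adv_zero A2_mono)

section

variable {T : ℝ} {u : ℝ → V → V} {p : ℝ → V → ℝ}

/-- The solution shifted in time, on a ball. -/
theorem shift_sol (h : IsSol 1 T u p) {t₀ : ℝ} (h0 : t₀ ∈ Ioo 0 T) (a : V) (ρ E : ℝ)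
    (hE : ∀ t ∈ Ioo t₀ T, A2 a ρ (u t) ≤ E ^ 2) :
    OSol 1 (T - t₀) E (ball a ρ) (fun t => u (t₀ + t)) (fun t => p (t₀ + t)) := by
  have hI : ∀ t ∈ Ioo 0 (T - t₀), t₀ + t ∈ Ioo 0 T := fun t ht =>
    ⟨by linarith [h0.1, ht.1], by linarith [ht.2]⟩
  have hg : ContDiff ℝ ∞ (fun z : ℝ × V => (t₀ + z.1, z.2)) := by fun_prop
  have hmaps : ∀ z ∈ Ioo 0 (T - t₀) ×ˢ ball a ρ, (t₀ + z.1, z.2) ∈ Ioo 0 T ×ˢ (univ : Set V) :=
    fun z hz => ⟨hI z.1 hz.1, mem_univ _⟩
  refine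
    { openO := isOpen_ball
      smooth_u := (sm_u h).comp (f := fun z : ℝ × V => (t₀ + z.1, z.2)) hg.contDiffOn hmaps
      smooth_p := (sm_p h).comp (f := fun z : ℝ × V => (t₀ + z.1, z.2)) hg.contDiffOn hmaps
      divfree := fun t ht x _ => h.divfree _ (Ioo_sub (hI t ht)) x
      momentum := ?_
      en_int := fun t ht => iob (cont_nsq (spv_u h (hI t ht)).1) a ρ
      en := fun t ht => hE _ ⟨by linarith [ht.1], by linarith [ht.2]⟩ }
  intro t ht x _ i
  have h1 := h.momentum _ (hI t ht) x i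
  rw [← h1]
  congr 1
  exact deriv_comp_const_add (fun s => u s x i) t₀ t

theorem cf_tsupport (a : V) (k : ℕ) : tsupport (cf a k) ⊆ ball a (rr k) := by
  have h1 : tsupport (cf a k) ⊆ closedBall a (3 / 4 * rr k) := by
    refine closure_minimal (fun x hx => ?_) isClosed_closedBall
    by_contra hcon
    rw [mem_closedBall, not_le] at hcon
    exact hx (cf_zero' hcon.le)
  refine h1.trans (closedBall_subset_ball ?_)
  have := rr_pos k
  linarith

theorem gsq_int_B2 {v : V → V} (hv : ContDiff ℝ ∞ v) (a : V) (ρ : ℝ) :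
    ∫⁻ y in ball a ρ, ENNReal.ofReal (gsq v y) = ENNReal.ofReal (B2 a ρ v) := by
  unfold B2
  rw [ofReal_integral_eq_lintegral_ofReal (iob (cont_gsq hv) a ρ)
    (Eventually.of_forall fun y => gsq_nonneg v y)]

/-- The dissipation until the blow-up time. -/
theorem diss_le (h : IsSol 1 T u p) {t₀ : ℝ} (h0 : t₀ ∈ Ioo 0 T) (a : V) {ρ K : ℝ}
    (hρ : ρ ≤ 1 / 2)
    (hK : ∀ t ∈ Ico t₀ T, ∫ τ in t₀..t, B2 a ρ (u τ) ≤ K) :
    ∫⁻ τ in Ioo t₀ T, ENNReal.ofReal (B2 a ρ (u τ)) ≤ ENNReal.ofReal K := by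
  have hT : 0 < T := h0.1.trans h0.2
  have hE := B.p_enst 1 T u p one_pos hT h
  have hsub : Ioo t₀ T ⊆ Ioo 0 T := Ioo_subset_Ioo_left h0.1.le
  have hint : IntegrableOn (fun τ => B2 a ρ (u τ)) (Ioo t₀ T) := by
    refine Integrable.mono' (hE.mono_set hsub) ?_ ?_
    · exact ((ct_B2 h a ρ).mono hsub).aestronglyMeasurable measurableSet_Ioo
    · refine (ae_restrict_iff' measurableSet_Ioo).2 (Eventually.of_forall fun τ hτ => ?_)
      rw [Real.norm_of_nonneg (B2_nonneg _ _ _)]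
      exact B2_le_enstrophy (spv_u h (hsub hτ)) a hρ
  rw [← ofReal_integral_eq_lintegral_ofReal hint
    (Eventually.of_forall fun y => B2_nonneg _ _ _)]
  refine ENNReal.ofReal_le_ofReal ?_
  have hint' : IntegrableOn (fun τ => B2 a ρ (u τ)) (uIcc t₀ T) := by
    rw [uIcc_of_le h0.2.le]
    exact (integrableOn_Icc_iff_integrableOn_Ioo).2 hint
  have hc := intervalIntegral.continuousOn_primitive_interval hint'
  rw [uIcc_of_le h0.2.le] at hc
  have h1 : ∫ τ in t₀..T, B2 a ρ (u τ) ≤ K := by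
    have h2 : ContinuousWithinAt (fun t => ∫ τ in t₀..t, B2 a ρ (u τ)) (Ico t₀ T) T :=
      (hc T ⟨h0.2.le, le_rfl⟩).mono Ico_subset_Icc_self
    have h3 : T ∈ closure (Ico t₀ T) := by
      rw [closure_Ico h0.2.ne]
      exact ⟨h0.2.le, le_rfl⟩
    have : (𝓝[Ico t₀ T] T).NeBot := mem_closure_iff_nhdsWithin_neBot.1 h3
    exact le_of_tendsto h2 (eventually_nhdsWithin_of_forall fun t ht => hK t ht)
  rw [intervalIntegral.integral_of_le h0.2.le] at h1
  rwa [← integral_Ioc_eq_integral_Ioo]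

theorem sing_shift {t₀ : ℝ} {a : V} {k : ℕ} (hs : Sing T u a) :
    Sing (T - t₀) (fun t x => cf a k x • u (t₀ + t) x) a := by
  intro δ hδ B
  have hr := rr_pos (k + 1)
  obtain ⟨t, ht, y, hy, hB⟩ := hs (min δ (rr (k + 1))) (lt_min hδ hr) B
  refine ⟨t - t₀, ⟨?_, ?_⟩, y, ball_subset_ball (min_le_left _ _) hy, ?_⟩
  · linarith [ht.1, min_le_left δ (rr (k + 1))]
  · linarith [ht.2]
  · have e : t₀ + (t - t₀) = t := by ring
    show B < ‖cf a k y • u (t₀ + (t - t₀)) y‖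
    rw [e, cf_one (ball_subset_ball (min_le_right _ _) hy), one_smul]
    exact hB

end

/-- The criterion. -/
theorem crit : ∃ ε l K : ℝ, 0 < ε ∧ 0 < l ∧ l ≤ 1 ∧ 1 ≤ K ∧
    ∀ (T : ℝ) (u : ℝ → V → V) (p : ℝ → V → ℝ), IsSol 1 T u p →
    ∀ (n : ℕ) (t₀ : ℝ) (a : V), 5 ≤ n → t₀ ∈ Ioo 0 T → l / 4 < 4 ^ n * (T - t₀) →
      4 ^ n * (T - t₀) ≤ l → K * (1 + energy (u 0)) ^ 2 ≤ 2 ^ n →
      (∀ k, 5 ≤ k → k ≤ n → A2 a (rr k) (u t₀) ≤ LL ε n k) → ¬ Sing T u a := by
  obtain ⟨e₀, l₀, d₀, he₀, hl₀, hl₁, hd₀, hloc⟩ := local_bound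
  obtain ⟨C, hC, hcount⟩ := B.p_count2
  obtain ⟨M, hM, hcf⟩ := cf_bd
  -- the constants
  obtain ⟨c, hc, hc1, hcC, hcl⟩ : ∃ c : ℝ, 0 < c ∧ c ≤ 1 ∧ C * c ≤ 1 / 4 ∧ 2 * c ^ 2 < l₀ / 4 := by
    refine ⟨min 1 (min (1 / (4 * C)) (l₀ / 4)), by positivity, min_le_left _ _, ?_, ?_⟩
    · have h1 : min 1 (min (1 / (4 * C)) (l₀ / 4)) ≤ 1 / (4 * C) :=
        (min_le_right _ _).trans (min_le_left _ _)
      calc C * min 1 (min (1 / (4 * C)) (l₀ / 4)) ≤ C * (1 / (4 * C)) :=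
            mul_le_mul_of_nonneg_left h1 hC.le
        _ = 1 / 4 := by field_simp
    · have h1 : min 1 (min (1 / (4 * C)) (l₀ / 4)) ≤ l₀ / 4 :=
        (min_le_right _ _).trans (min_le_right _ _)
      have h2 : 0 < min 1 (min (1 / (4 * C)) (l₀ / 4)) := by positivity
      have h3 : min 1 (min (1 / (4 * C)) (l₀ / 4)) ≤ 1 / 4 := by linarith
      nlinarith
  obtain ⟨ε, hε, hεe, hε1, hε2, hε3⟩ : ∃ ε : ℝ, 0 < ε ∧ ε ≤ e₀ ∧ √ε ≤ 1 / (12 * C) ∧
      √ε ≤ 1 / (6 * C * M) ∧ 9 * C * ε < c := by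
    have hM0 : 0 < M := by linarith
    refine ⟨min (min e₀ ((1 / (12 * C)) ^ 2)) (min ((1 / (6 * C * M)) ^ 2) (c / (18 * C))),
      by positivity, (min_le_left _ _).trans (min_le_left _ _), ?_, ?_, ?_⟩
    · rw [Real.sqrt_le_left (by positivity)]
      exact (min_le_left _ _).trans (min_le_right _ _)
    · rw [Real.sqrt_le_left (by positivity)]
      exact (min_le_right _ _).trans (min_le_left _ _)
    · have h1 : min (min e₀ ((1 / (12 * C)) ^ 2)) (min ((1 / (6 * C * M)) ^ 2) (c / (18 * C)))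
        ≤ c / (18 * C) := (min_le_right _ _).trans (min_le_right _ _)
      calc 9 * C * min (min e₀ ((1 / (12 * C)) ^ 2)) (min ((1 / (6 * C * M)) ^ 2) (c / (18 * C)))
          ≤ 9 * C * (c / (18 * C)) := mul_le_mul_of_nonneg_left h1 (by positivity)
        _ = c / 2 := by field_simp; norm_num
        _ < c := by linarith
  refine ⟨ε, l₀, 1 + 1 / (d₀ ^ 2 * ε) + 2048 / ε, hε, hl₀, hl₁, ?_, ?_⟩
  · have h1 : 0 < 1 / (d₀ ^ 2 * ε) := by positivity
    have h2 : 0 < 2048 / ε := by positivity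
    linarith
  intro T u p h n t₀ a hn h0 hl4 hl hK hA hsing
  have hen := energy_nonneg' (u 0)
  have hr := rr_pos n
  have hr2 := two_rr n
  have h2n : (0 : ℝ) < 2 ^ n := by positivity
  -- the energy conditions
  have hK1 : 1 / (d₀ ^ 2 * ε) * (1 + energy (u 0)) ^ 2 ≤ 2 ^ n := by
    refine le_trans ?_ hK
    refine mul_le_mul_of_nonneg_right ?_ (sq_nonneg _)
    have h2 : 0 < 2048 / ε := by positivity
    linarith
  have hK2 : 2048 / ε * (1 + energy (u 0)) ^ 2 ≤ 2 ^ n := by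
    refine le_trans ?_ hK
    refine mul_le_mul_of_nonneg_right ?_ (sq_nonneg _)
    have h1 : 0 < 1 / (d₀ ^ 2 * ε) := by positivity
    linarith
  have hE1 : energy (u 0) ≤ d₀ * √ε * √(2 ^ n) := by
    have e1 : energy (u 0) ^ 2 ≤ d₀ ^ 2 * ε * 2 ^ n := by
      have e2 : (1 + energy (u 0)) ^ 2 ≤ d₀ ^ 2 * ε * 2 ^ n := by
        have e3 : (1 + energy (u 0)) ^ 2 =
            (d₀ ^ 2 * ε) * (1 / (d₀ ^ 2 * ε) * (1 + energy (u 0)) ^ 2) := by field_simp
        rw [e3]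
        exact mul_le_mul_of_nonneg_left hK1 (by positivity)
      nlinarith
    have e2 : energy (u 0) ≤ √(d₀ ^ 2 * ε * 2 ^ n) := Real.le_sqrt_of_sq_le e1
    rwa [Real.sqrt_mul (by positivity), Real.sqrt_mul (by positivity), Real.sqrt_sq hd₀.le] at e2
  have hE2 : 2 * energy (u 0) ≤ LL ε n 5 := by
    have e2 : 2048 * (1 + energy (u 0)) ^ 2 ≤ ε * 2 ^ n := by
      have e3 : 2048 * (1 + energy (u 0)) ^ 2 =
          ε * (2048 / ε * (1 + energy (u 0)) ^ 2) := by field_simp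
      rw [e3]
      exact mul_le_mul_of_nonneg_left hK2 hε.le
    unfold LL
    rw [le_div_iff₀ (by positivity)]
    norm_num
    nlinarith
  have hb := hloc T u p h ε n t₀ a hε hεe h0 hl hE1 hE2 hA
  -- the local energy at the smallest scale
  have hLn : LL ε n n = ε * rr n := by
    unfold LL
    have e1 : (4 : ℝ) ^ n = 2 ^ n * 2 ^ n := by rw [← mul_pow]; norm_num
    rw [e1, div_eq_iff (by positivity)]
    calc ε * 2 ^ n = ε * (2 ^ n * rr n) * 2 ^ n := by rw [hr2]; ring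
      _ = _ := by ring
  set E : ℝ := 3 * √ε * √(rr n) with hE
  have hE0 : 0 ≤ E := by positivity
  have hEE : E ^ 2 = 9 * LL ε n n := by
    rw [hLn, hE, mul_pow, mul_pow, Real.sq_sqrt hε.le, Real.sq_sqrt hr.le]
    ring
  have hA2 : ∀ t ∈ Ioo t₀ T, A2 a (rr n) (u t) ≤ E ^ 2 := by
    intro t ht
    have e1 := hb n (by omega) le_rfl t ⟨ht.1.le, ht.2⟩
    have e2 : 0 ≤ ∫ τ in t₀..t, B2 a (rr n) (u τ) :=
      intervalIntegral.integral_nonneg ht.1.le fun τ _ => B2_nonneg _ _ _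
    rw [hEE]
    linarith
  have hO := shift_sol h h0 a (rr n) E hA2
  have hL := Pool.Agent.W349.MF.cut_sol hE0 hO (cf_sm a n)
    (Pool.Agent.Y8.hcsR (R := rr n) cf_zero) (cf_tsupport a n)
    (fun x => ⟨cf_nonneg a n x, cf_le a n x⟩) (O := ball a (rr (n + 1))) isOpen_ball
    (ball_subset_ball (rr_anti (Nat.le_succ n))) (fun x hx => cf_one hx) (B := M * 2 ^ n)
    (by positivity) (fun i x => (hcf a n).1 x i)
  have hsr : √(rr n) * √(rr n) = rr n := Real.mul_self_sqrt hr.le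
  have hsc : √(c * rr n) = √c * √(rr n) := Real.sqrt_mul hc.le _
  have hsc1 : √c ≤ 1 := Real.sqrt_le_one.2 hc1
  have hsc0 : 0 ≤ √c := Real.sqrt_nonneg c
  have hse : 0 ≤ √ε := Real.sqrt_nonneg ε
  have key := hcount (T - t₀) (2 * (M * 2 ^ n) * E) E (ball a (rr (n + 1))) _ _ (by positivity)
    hE0 hL (c * rr n) (by positivity) ?_ ?_ {a} ?_ ?_ ?_
  · -- conclusion
    rw [Finset.card_singleton, Nat.cast_one, one_mul] at key
    have hint : ∫⁻ τ in Ioo (T - t₀ - 2 * (c * rr n) ^ 2) (T - t₀), ∫⁻ y in ball a (rr (n + 1)),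
        ENNReal.ofReal (gsq (fun x => cf a n x • u (t₀ + τ) x) y) ≤
        ENNReal.ofReal (9 * LL ε n n) := by
      have e0 : 0 ≤ T - t₀ - 2 * (c * rr n) ^ 2 := by
        have e1 : 4 ^ n * (2 * (c * rr n) ^ 2) = 2 * c ^ 2 := by
          have e2 : (4 : ℝ) ^ n * rr n ^ 2 = 1 := by
            have e3 : (4 : ℝ) ^ n = 2 ^ n * 2 ^ n := by rw [← mul_pow]; norm_num
            calc (4 : ℝ) ^ n * rr n ^ 2 = (2 ^ n * rr n) * (2 ^ n * rr n) := by rw [e3]; ring
              _ = 1 := by rw [hr2, one_mul]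
          calc 4 ^ n * (2 * (c * rr n) ^ 2) = 2 * c ^ 2 * (4 ^ n * rr n ^ 2) := by ring
            _ = _ := by rw [e2, mul_one]
        have e4 : (4 : ℝ) ^ n * (2 * (c * rr n) ^ 2) < 4 ^ n * (T - t₀) := by
          rw [e1]
          linarith
        have e5 := lt_of_mul_lt_mul_left e4 (by positivity)
        linarith
      have e1 : ∫⁻ τ in Ioo (T - t₀ - 2 * (c * rr n) ^ 2) (T - t₀), ∫⁻ y in ball a (rr (n + 1)),
          ENNReal.ofReal (gsq (fun x => cf a n x • u (t₀ + τ) x) y) ≤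
          ∫⁻ τ in Ioo 0 (T - t₀), ENNReal.ofReal (B2 a (rr n) (u (t₀ + τ))) := by
        refine (lintegral_mono_set (Ioo_subset_Ioo_left e0)).trans ?_
        refine setLIntegral_mono' measurableSet_Ioo fun τ hτ => ?_
        have hti : t₀ + τ ∈ Ioo 0 T := ⟨by linarith [h0.1, hτ.1], by linarith [hτ.2]⟩
        have hg : ∀ y ∈ ball a (rr (n + 1)), gsq (fun x => cf a n x • u (t₀ + τ) x) y =
            gsq (u (t₀ + τ)) y := by
          intro y hy
          unfold gsq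
          refine Finset.sum_congr rfl fun i _ => Finset.sum_congr rfl fun j _ => ?_
          have h2 : (fun y => (cf a n y • u (t₀ + τ) y) i) =ᶠ[𝓝 y] fun y => u (t₀ + τ) y i := by
            filter_upwards [isOpen_ball.mem_nhds hy] with z hz
            rw [cf_one hz, one_smul]
          rw [Pool.Agent.W349.MF.pd_congr' h2 j]
        rw [setLIntegral_congr_fun measurableSet_ball (g := fun y =>
          ENNReal.ofReal (gsq (u (t₀ + τ)) y)) fun y hy => by simp only [hg y hy]]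
        rw [← gsq_int_B2 (spv_u h hti).1 a (rr n)]
        exact lintegral_mono_set (ball_subset_ball (rr_anti (Nat.le_succ n)))
      refine e1.trans ?_
      have e2 : ∫⁻ τ in Ioo 0 (T - t₀), ENNReal.ofReal (B2 a (rr n) (u (t₀ + τ))) =
          ∫⁻ τ in Ioo t₀ T, ENNReal.ofReal (B2 a (rr n) (u τ)) := by
        have e3 := (measurePreserving_add_left (volume : Measure ℝ) t₀).setLIntegral_comp_preimage_emb
          (MeasurableEquiv.addLeft t₀).measurableEmbedding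
          (fun τ => ENNReal.ofReal (B2 a (rr n) (u τ))) (Ioo t₀ T)
        rw [← e3]
        congr 2
        ext x
        simp only [mem_Ioo, mem_preimage]
        constructor
        · intro hx
          exact ⟨by linarith [hx.1], by linarith [hx.2]⟩
        · intro hx
          exact ⟨by linarith [hx.1], by linarith [hx.2]⟩
      rw [e2]
      refine diss_le h h0 a ((rr_anti (show 1 ≤ n by omega)).trans (by norm_num [rr])) ?_
      intro t ht
      have e3 := hb n (by omega) le_rfl t ht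
      have e4 := A2_nonneg a (rr n) (u t)
      linarith
    have h1 := key.trans (mul_le_mul_right hint _)
    rw [← ENNReal.ofReal_mul hC.le, ENNReal.ofReal_le_ofReal_iff (by
      have := LL_nonneg hε.le n n
      positivity), hLn] at h1
    have h2 : c * rr n ≤ 9 * C * ε * rr n := by linarith
    have h3 := le_of_mul_le_mul_right h2 hr
    linarith
  · -- 2 r² < T - t₀
    have e1 : 4 ^ n * (2 * (c * rr n) ^ 2) = 2 * c ^ 2 := by
      have e2 : (4 : ℝ) ^ n * rr n ^ 2 = 1 := by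
        have e3 : (4 : ℝ) ^ n = 2 ^ n * 2 ^ n := by rw [← mul_pow]; norm_num
        calc (4 : ℝ) ^ n * rr n ^ 2 = (2 ^ n * rr n) * (2 ^ n * rr n) := by rw [e3]; ring
          _ = 1 := by rw [hr2, one_mul]
      calc 4 ^ n * (2 * (c * rr n) ^ 2) = 2 * c ^ 2 * (4 ^ n * rr n ^ 2) := by ring
        _ = _ := by rw [e2, mul_one]
    have e4 : (4 : ℝ) ^ n * (2 * (c * rr n) ^ 2) < 4 ^ n * (T - t₀) := by
      rw [e1]
      linarith
    exact lt_of_mul_lt_mul_left e4 (by positivity)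
  · -- C κ √r ≤ 1
    rw [hsc, hE]
    have e1 : C * (2 * (M * 2 ^ n) * (3 * √ε * √(rr n))) * (√c * √(rr n)) =
        6 * C * M * √ε * √c * (2 ^ n * (√(rr n) * √(rr n))) := by ring
    rw [e1, hsr, hr2, mul_one]
    have e2 : 6 * C * M * √ε ≤ 1 := by
      have hCM : 0 < 6 * C * M := by positivity
      calc 6 * C * M * √ε ≤ 6 * C * M * (1 / (6 * C * M)) :=
            mul_le_mul_of_nonneg_left hε2 hCM.le
        _ = 1 := by field_simp
    have e3 : 0 ≤ 6 * C * M * √ε := by positivity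
    calc 6 * C * M * √ε * √c ≤ 1 * 1 := mul_le_mul e2 hsc1 hsc0 zero_le_one
      _ = 1 := one_mul 1
  · intro x hx
    rw [Finset.mem_singleton] at hx
    rw [hx]
    exact sing_shift hsing
  · intro x hx
    rw [Finset.mem_singleton] at hx
    rw [hx]
    refine ball_subset_ball ?_
    have e : rr (n + 1) = rr n / 2 := by
      rw [rr_val, rr_val, pow_succ]
      ring
    rw [e, hsc, hE]
    have e1 : C * (c * rr n + 3 * √ε * √(rr n) * (√c * √(rr n))) =
        (C * c) * rr n + 3 * C * √ε * √c * (√(rr n) * √(rr n)) := by ring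
    rw [e1, hsr]
    have e2 : 3 * C * √ε ≤ 1 / 4 := by
      calc 3 * C * √ε ≤ 3 * C * (1 / (12 * C)) := mul_le_mul_of_nonneg_left hε1 (by positivity)
        _ = 1 / 4 := by field_simp; norm_num
    have e3 : 3 * C * √ε * √c ≤ 1 / 4 * 1 :=
      mul_le_mul e2 hsc1 hsc0 (by norm_num)
    have e4 := mul_le_mul_of_nonneg_right hcC hr.le
    have e5 := mul_le_mul_of_nonneg_right e3 hr.le
    linarith
  · intro x hx y hy hxy
    rw [Finset.mem_singleton] at hx hy
    exact absurd (hx.trans hy.symm) hxy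

end Pool.Agent.H4NS
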