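import Pool.Agent.H4NS.Flux

/-!
Cut-off functions at dyadic scales, and bounds for the local `L⁴` norms.
-/

open MeasureTheory Set Metric
open scoped ContDiff

namespace Pool.Agent.H4NS

open H459R3.NS W221.NS
open Pool.Agent.W386.MD (cont_nsq nsq_nonneg cs iob rr_pos)

/-- A smooth bump: `1` on the closed ball of radius `1/2`, support the ball of radius `3/4`. -/
noncomputable def bz : ContDiffBump (0 : V) := ⟨1 / 2, 3 / 4, by norm_num, by norm_num⟩

/-- The bump at the scale `2⁻ᵏ` around `a`. -/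
noncomputable def cf (a : V) (k : ℕ) (z : V) : ℝ := bz (-((2 : ℝ) ^ k • a) + (2 : ℝ) ^ k • z)

theorem bz_sm : ContDiff ℝ ∞ (fun z : V => bz z) := bz.contDiff

theorem cf_sm (a : V) (k : ℕ) : ContDiff ℝ ∞ (cf a k) :=
  Pool.Agent.W135.MD.sm_comp bz_sm _ _

theorem cf_norm (a z : V) (k : ℕ) : ‖-((2 : ℝ) ^ k • a) + (2 : ℝ) ^ k • z‖ = 2 ^ k * dist z a := by
  have e : -((2 : ℝ) ^ k • a) + (2 : ℝ) ^ k • z = (2 : ℝ) ^ k • (z - a) := by
    rw [smul_sub]
    abel
  rw [e, norm_smul, dist_eq_norm, Real.norm_of_nonneg (by positivity)]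

theorem two_rr (k : ℕ) : (2 : ℝ) ^ k * rr k = 1 := by
  rw [rr_val, ← mul_pow]
  norm_num

theorem cf_nonneg (a : V) (k : ℕ) (z : V) : 0 ≤ cf a k z := bz.nonneg

theorem cf_le (a : V) (k : ℕ) (z : V) : cf a k z ≤ 1 := bz.le_one

theorem cf_zero' {a : V} {k : ℕ} {z : V} (hz : 3 / 4 * rr k ≤ dist z a) : cf a k z = 0 := by
  unfold cf
  apply bz.zero_of_le_dist
  rw [dist_zero_right, cf_norm]
  have h1 := two_rr k
  have h2 : (0 : ℝ) < 2 ^ k := by positivity
  show (3 / 4 : ℝ) ≤ 2 ^ k * dist z a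
  calc (3 / 4 : ℝ) = 2 ^ k * (3 / 4 * rr k) := by linear_combination (-3 / 4) * h1
    _ ≤ 2 ^ k * dist z a := mul_le_mul_of_nonneg_left hz h2.le

theorem cf_zero {a : V} {k : ℕ} : ∀ z ∉ ball a (rr k), cf a k z = 0 := by
  intro z hz
  apply cf_zero'
  rw [mem_ball, not_lt] at hz
  have := rr_pos k
  linarith

theorem cf_one {a : V} {k : ℕ} {z : V} (hz : z ∈ ball a (rr (k + 1))) : cf a k z = 1 := by
  unfold cf
  apply bz.one_of_mem_closedBall
  rw [mem_closedBall, dist_zero_right, cf_norm]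
  have h1 := two_rr k
  have h2 : (0 : ℝ) < 2 ^ k := by positivity
  rw [mem_ball] at hz
  have e : rr (k + 1) = rr k / 2 := by
    rw [rr_val, rr_val, pow_succ]
    ring
  rw [e] at hz
  show 2 ^ k * dist z a ≤ (1 / 2 : ℝ)
  calc 2 ^ k * dist z a ≤ 2 ^ k * (rr k / 2) := mul_le_mul_of_nonneg_left hz.le h2.le
    _ = 1 / 2 := by linear_combination (1 / 2) * h1

theorem bz_bd : ∃ M : ℝ, 1 ≤ M ∧ (∀ (i : Fin 3) (x : V), |pd i (fun y : V => bz y) x| ≤ M) ∧
    ∀ x : V, |lap (fun y : V => bz y) x| ≤ M := by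
  have hcs : HasCompactSupport (fun y : V => bz y) := bz.hasCompactSupport
  have h1 : ∀ i : Fin 3, ∃ B : ℝ, ∀ x : V, ‖pd i (fun y : V => bz y) x‖ ≤ B := fun i =>
    (Pool.Agent.W135.MD.sm_pd bz_sm i).continuous.bounded_above_of_compact_support
      (hcs.fderiv_apply ℝ (Pi.single i 1))
  have h2 : ∀ i : Fin 3, ∃ B : ℝ, ∀ x : V, ‖pd i (pd i (fun y : V => bz y)) x‖ ≤ B := by
    intro i
    have e1 : HasCompactSupport (pd i (fun y : V => bz y)) := hcs.fderiv_apply ℝ (Pi.single i 1)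
    exact (Pool.Agent.W135.MD.sm_pd (Pool.Agent.W135.MD.sm_pd bz_sm i)
      i).continuous.bounded_above_of_compact_support (e1.fderiv_apply ℝ (Pi.single i 1))
  choose B hB using h1
  choose B' hB' using h2
  refine ⟨1 + ∑ i, |B i| + ∑ i, |B' i|, ?_, ?_, ?_⟩
  · have e1 : 0 ≤ ∑ i, |B i| := Finset.sum_nonneg fun i _ => abs_nonneg _
    have e2 : 0 ≤ ∑ i, |B' i| := Finset.sum_nonneg fun i _ => abs_nonneg _
    linarith
  · intro i x
    have h3 := hB i x
    rw [Real.norm_eq_abs] at h3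
    have e1 : |B i| ≤ ∑ i, |B i| :=
      Finset.single_le_sum (f := fun i => |B i|) (fun _ _ => abs_nonneg _) (Finset.mem_univ i)
    have e2 : 0 ≤ ∑ i, |B' i| := Finset.sum_nonneg fun i _ => abs_nonneg _
    have e3 := le_abs_self (B i)
    linarith
  · intro x
    have e1 : 0 ≤ ∑ i, |B i| := Finset.sum_nonneg fun i _ => abs_nonneg _
    have e2 : |lap (fun y : V => bz y) x| ≤ ∑ i, |B' i| := by
      unfold lap
      refine (Finset.abs_sum_le_sum_abs _ _).trans (Finset.sum_le_sum fun i _ => ?_)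
      have h3 := hB' i x
      rw [Real.norm_eq_abs] at h3
      exact h3.trans (le_abs_self _)
    linarith

theorem cf_bd : ∃ M : ℝ, 1 ≤ M ∧ ∀ (a : V) (k : ℕ),
    (∀ (z : V) (i : Fin 3), |pd i (cf a k) z| ≤ M * 2 ^ k) ∧
      ∀ z : V, |lap (cf a k) z| ≤ M * 4 ^ k := by
  obtain ⟨M, hM, h1, h2⟩ := bz_bd
  refine ⟨M, hM, fun a k => ⟨fun z i => ?_, fun z => ?_⟩⟩
  · have e := Pool.Agent.W135.MD.pd_aff (f := fun y : V => bz y)
      (bz_sm.differentiable (by norm_num)) (-((2 : ℝ) ^ k • a)) ((2 : ℝ) ^ k) i z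
    have e' : pd i (cf a k) z = (2 : ℝ) ^ k * pd i (fun y : V => bz y)
        (-((2 : ℝ) ^ k • a) + (2 : ℝ) ^ k • z) := e
    rw [e', abs_mul, abs_of_pos (by positivity : (0 : ℝ) < 2 ^ k), mul_comm]
    exact mul_le_mul_of_nonneg_right (h1 i _) (by positivity)
  · have e : lap (cf a k) z = (4 : ℝ) ^ k * lap (fun y : V => bz y)
        (-((2 : ℝ) ^ k • a) + (2 : ℝ) ^ k • z) := by
      unfold lap
      rw [Finset.mul_sum]
      refine Finset.sum_congr rfl fun i _ => ?_
      have e1 := Pool.Agent.W135.MD.pd2_aff (f := fun y : V => bz y) bz_sm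
        (-((2 : ℝ) ^ k • a)) ((2 : ℝ) ^ k) i i z
      have e2 : ((2 : ℝ) ^ k) ^ 2 = 4 ^ k := by
        rw [← pow_mul, mul_comm, pow_mul]
        norm_num
      rw [e2] at e1
      exact e1
    rw [e, abs_mul, abs_of_pos (by positivity : (0 : ℝ) < 4 ^ k), mul_comm]
    exact mul_le_mul_of_nonneg_right (h2 _) (by positivity)

theorem nsq_per {u : V → V} (hu : SPV u) : Per (nsq u) := fun j x => by
  unfold nsq
  rw [hu.2 j x]

theorem spv_sp {u : V → V} (hu : SPV u) (i : Fin 3) : SP (fun y => u y i) :=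
  ⟨contDiff_pi.1 hu.1 i, fun j x => by rw [hu.2 j x]⟩

theorem gsq_per {u : V → V} (hu : SPV u) : Per (gsq u) := fun j x => by
  unfold gsq
  refine Finset.sum_congr rfl fun i _ => Finset.sum_congr rfl fun l _ => ?_
  rw [((spv_sp hu i).pd l).per j x]

theorem cont_gsq {u : V → V} (hu : ContDiff ℝ ∞ u) : Continuous (gsq u) := by
  unfold gsq
  exact continuous_finsetSum _ fun i _ => continuous_finsetSum _ fun j _ =>
    ((Pool.Agent.W135.MD.sm_pd (contDiff_pi.1 hu i) j).continuous.pow 2)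

theorem gsq_nonneg (u : V → V) (x : V) : 0 ≤ gsq u x :=
  Finset.sum_nonneg fun _ _ => Finset.sum_nonneg fun _ _ => sq_nonneg _

theorem int_nsq {u : V → V} (hu : SPV u) : ∫ x in cube, nsq u x = energy u := by
  unfold nsq energy
  rw [integral_finsetSum]
  intro i _
  exact integrableOn_cube ((spv_sp hu i).cont.pow 2)

theorem int_gsq {u : V → V} (hu : SPV u) : ∫ x in cube, gsq u x = enstrophy u := by
  unfold gsq enstrophy
  have hi : ∀ i j, IntegrableOn (fun x => pd j (fun y => u y i) x ^ 2) cube := fun i j =>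
    integrableOn_cube (((spv_sp hu i).pd j).cont.pow 2)
  rw [integral_finsetSum _ fun i _ => integrable_finsetSum _ fun j _ => hi i j]
  refine Finset.sum_congr rfl fun i _ => ?_
  rw [integral_finsetSum _ fun j _ => hi i j]

theorem A2_le_energy {u : V → V} (hu : SPV u) (a : V) {ρ : ℝ} (hρ : ρ ≤ 1 / 2) :
    A2 a ρ u ≤ energy u := by
  rw [← int_nsq hu]
  exact Pool.Agent.W135.MD.ball_le_cube (cont_nsq hu.1) (nsq_per hu) (nsq_nonneg u) a hρ

theorem B2_le_enstrophy {u : V → V} (hu : SPV u) (a : V) {ρ : ℝ} (hρ : ρ ≤ 1 / 2) :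
    B2 a ρ u ≤ enstrophy u := by
  rw [← int_gsq hu]
  exact Pool.Agent.W135.MD.ball_le_cube (cont_gsq hu.1) (gsq_per hu) (gsq_nonneg u) a hρ

theorem energy_nonneg' (v : V → V) : 0 ≤ energy v :=
  Finset.sum_nonneg fun _ _ => integral_nonneg fun _ => sq_nonneg _

theorem enstrophy_nonneg' (v : V → V) : 0 ≤ enstrophy v :=
  Finset.sum_nonneg fun _ _ => Finset.sum_nonneg fun _ _ => integral_nonneg fun _ => sq_nonneg _

/-- The `L⁴` norm over the period cell. -/
theorem q4_le : ∃ C : ℝ, 0 < C ∧ ∀ u : V → V, SPV u →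
    √(∫ x in cube, nsq u x ^ 2) ≤ C * (energy u + enstrophy u) := by
  obtain ⟨CL, hCL, hL⟩ := B.p_l4
  obtain ⟨N, hN⟩ := Pool.Agent.W917.MD.ball_le (1 : ℝ)
  refine ⟨CL * (N + 1), by positivity, fun u hu => ?_⟩
  set c : V := fun _ => 1 / 2 with hc
  have hsub : ball c (1 / 2) ⊆ cube := by
    intro z hz
    rw [mem_ball, dist_pi_lt_iff (by norm_num)] at hz
    constructor
    · intro i
      have h1 := hz i
      rw [Real.dist_eq, abs_lt] at h1
      show (0 : ℝ) ≤ z i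
      have h2 := h1.1
      simp only [hc] at h2
      linarith
    · intro i
      have h1 := hz i
      rw [Real.dist_eq, abs_lt] at h1
      show z i ≤ (1 : ℝ)
      have h2 := h1.2
      simp only [hc] at h2
      linarith
  have hv : volume cube ≤ volume (ball c (1 / 2)) := by
    rw [volume_cube, Real.volume_pi_ball c (by norm_num)]
    norm_num
  have hae : ball c (1 / 2) =ᵐ[volume] cube :=
    ae_eq_of_subset_of_measure_ge hsub hv measurableSet_ball.nullMeasurableSet (by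
      rw [volume_cube]
      exact ENNReal.one_ne_top)
  have e1 : ∫ x in cube, nsq u x ^ 2 = L4 c (rr (0 + 1)) u := by
    unfold L4
    have : rr (0 + 1) = 1 / 2 := by norm_num [rr]
    rw [this]
    exact (setIntegral_congr_set hae).symm
  have h1 := hL u hu.1 c 0 0 le_rfl
  rw [e1]
  have r0 : rr 0 = 1 := by norm_num [rr]
  rw [r0, Real.sqrt_one, mul_one, pow_zero, one_mul] at h1
  refine h1.trans ?_
  have h2 : A2 c 1 u ≤ N * energy u := by
    rw [← int_nsq hu]
    exact hN _ (cont_nsq hu.1) (nsq_per hu) (nsq_nonneg u) c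
  have h3 : B2 c 1 u ≤ N * enstrophy u := by
    rw [← int_gsq hu]
    exact hN _ (cont_gsq hu.1) (gsq_per hu) (gsq_nonneg u) c
  have h4 := energy_nonneg' u
  have h5 := enstrophy_nonneg' u
  rw [mul_assoc]
  refine mul_le_mul_of_nonneg_left ?_ hCL.le
  linarith

end Pool.Agent.H4NS
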