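import Pool.Agent.W221.NS.Stm
import Pool.Agent.H459R3.NS.High2

/-!
The pressure of a periodic solution: the Poisson equation and the bound in `L²`.
-/

open MeasureTheory Set Metric
open scoped ContDiff

namespace Pool.Agent.H4NS

open H459R3.NS W221.NS

theorem ddq_eq {u : V → V} (hu : ∀ i, SP (fun y => u y i))
    (hdiv : ∀ x, ∑ i, pd i (fun y => u y i) x = 0) (x : V) :
    ddq u x = ∑ i, pd i (conv (fun i y => u y i) i) x := by
  unfold ddq
  refine Finset.sum_congr rfl fun i _ => ?_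
  have h1 : ∀ j ∈ (Finset.univ : Finset (Fin 3)), SP (pd j (fun y => u y i * u y j)) :=
    fun j _ => ((hu i).mul (hu j)).pd j
  rw [← pd_sum h1 i x]
  congr 1
  funext y
  have h2 : ∀ j, pd j (fun y => u y i * u y j) y =
      u y i * pd j (fun y => u y j) y + u y j * pd j (fun y => u y i) y := by
    intro j
    rw [pd_mul (hu i) (hu j) j y]
    ring
  rw [Finset.sum_congr rfl fun j _ => h2 j, Finset.sum_add_distrib, ← Finset.mul_sum, hdiv,
    mul_zero, zero_add]
  rfl

theorem pd_sub3 {a b c : V → ℝ} {x : V} (ha : DifferentiableAt ℝ a x)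
    (hb : DifferentiableAt ℝ b x) (hc : DifferentiableAt ℝ c x) (i : Fin 3) :
    pd i (fun y => a y - b y - c y) x = pd i a x - pd i b x - pd i c x := by
  unfold pd
  rw [fderiv_fun_sub (ha.fun_sub hb) hc, fderiv_fun_sub ha hb]
  rfl

/-- The equation for the pressure. -/
theorem t_div {T : ℝ} {u : ℝ → V → V} {p : ℝ → V → ℝ} (h : IsSol 1 T u p) {t : ℝ}
    (ht : t ∈ Ioo 0 T) (x : V) : -lap (p t) x = ddq (u t) x := by
  have hI : t ∈ Ico 0 T := ⟨ht.1.le, ht.2⟩
  have hsp : ∀ i, SP (fun y => u t y i) := fun i => h.sp hI i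
  have hdiv := h.divfree t hI
  rw [ddq_eq hsp hdiv x]
  have e1 : ∀ i, pd i (dt (fun s y => u s y i) t) x = dt (fun s => pd i (fun y => u s y i)) t x :=
    fun i => (dt_pd (f := fun s y => u s y i) (h.smooth_c i) ht i x).symm
  have e2 : ∑ i, pd i (dt (fun s y => u s y i) t) x = 0 := by
    simp_rw [e1]
    unfold dt
    have hd : ∀ i ∈ (Finset.univ : Finset (Fin 3)), DifferentiableAt ℝ
        (fun s => pd i (fun y => u s y i) x) t := by
      intro i _
      have h2 := contDiffOn_pd (f := fun s y => u s y i) (h.smooth_c i) i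
      exact (hasDerivAt_slice (F := fun s => pd i (fun y => u s y i))
        (mono_Ioo (f := fun s => pd i (fun y => u s y i)) h2 (by norm_cast)) ht x).differentiableAt
    rw [← deriv_fun_sum hd]
    have h3 : (fun s => ∑ i, pd i (fun y => u s y i) x) =ᶠ[nhds t] fun _ => 0 := by
      filter_upwards [Ioo_mem_nhds ht.1 ht.2] with s hs
      exact h.divfree s ⟨hs.1.le, hs.2⟩ x
    rw [h3.deriv_eq]
    simp
  have e3 : ∀ i, pd i (dt (fun s y => u s y i) t) x = pd i (lap (fun y => u t y i)) x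
      - pd i (conv (fun i y => u t y i) i) x - pd i (pd i (p t)) x := by
    intro i
    have h1 : dt (fun s y => u s y i) t = fun x => lap (fun y => u t y i) x
      - conv (fun i y => u t y i) i x - pd i (p t) x := by
      funext y
      rw [h.dt_eq ht i y, one_mul]
    rw [h1]
    have s1 := (hsp i).lap
    have s2 : SP (conv (fun i y => u t y i) i) := sp_conv hsp i
    have s3 := (h.sp_p hI).pd i
    exact pd_sub3 (s1.diff x) (s2.diff x) (s3.diff x) i
  have e4 := div_lap (v := fun i y => u t y i) hsp hdiv x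
  have e5 : ∑ i, pd i (dt (fun s y => u s y i) t) x = ∑ i, pd i (lap (fun y => u t y i)) x
      - ∑ i, pd i (conv (fun i y => u t y i) i) x - ∑ i, pd i (pd i (p t)) x := by
    rw [Finset.sum_congr rfl fun i _ => e3 i, Finset.sum_sub_distrib, Finset.sum_sub_distrib]
  rw [e2, e4] at e5
  have e6 : lap (p t) x = ∑ i, pd i (pd i (p t)) x := rfl
  linarith

theorem fr_add {f g : V → ℝ} (hf : SP f) (hg : SP g) (k : K3) :
    fr (fun x => f x + g x) k = fr f k + fr g k := by
  unfold fr fc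
  have c1 : Continuous (fun x => ee (-k) x * ((f x : ℝ) : ℂ)) :=
    (ee_continuous _).mul (Complex.continuous_ofReal.comp hf.cont)
  have c2 : Continuous (fun x => ee (-k) x * ((g x : ℝ) : ℂ)) :=
    (ee_continuous _).mul (Complex.continuous_ofReal.comp hg.cont)
  rw [← integral_add (integrableOn_cube c1) (integrableOn_cube c2)]
  congr 1
  funext x
  push_cast
  ring

theorem fr_sum3 {f : Fin 3 → V → ℝ} (hf : ∀ i, SP (f i)) (k : K3) :
    fr (fun x => ∑ i, f i x) k = ∑ i, fr (f i) k := by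
  simp only [Fin.sum_univ_three]
  rw [fr_add (f := fun x => f 0 x + f 1 x) ((hf 0).add (hf 1)) (hf 2), fr_add (hf 0) (hf 1)]

theorem fr_pd2 {f : V → ℝ} (hf : SP f) (i j : Fin 3) (k : K3) :
    fr (pd i (pd j f)) k = -(4 * Real.pi ^ 2 * (k i : ℂ) * (k j : ℂ)) * fr f k := by
  rw [fr_pd (hf.pd j) i]
  unfold D
  rw [fr_pd hf j]
  unfold D
  have hI : Complex.I * Complex.I = -1 := Complex.I_mul_I
  linear_combination (4 * Real.pi ^ 2 * (k i : ℂ) * (k j : ℂ)) * fr f k * hI

theorem fr_lap {f : V → ℝ} (hf : SP f) (k : K3) :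
    fr (lap f) k = -(4 * Real.pi ^ 2 * ∑ j, (k j : ℂ) ^ 2) * fr f k := by
  unfold lap
  rw [fr_sum3 (f := fun j => pd j (pd j f)) (fun j => (hf.pd j).pd j) k]
  simp_rw [fr_pd2 hf]
  rw [← Finset.sum_mul]
  congr 1
  rw [Finset.mul_sum, ← Finset.sum_neg_distrib]
  exact Finset.sum_congr rfl fun j _ => by ring

theorem fr_ddq {u : V → V} (hu : ∀ i, SP (fun y => u y i)) (k : K3) :
    fr (ddq u) k = -(4 * Real.pi ^ 2) * ∑ i, ∑ j, (k i : ℂ) * (k j : ℂ) *
      fr (fun y => u y i * u y j) k := by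
  unfold ddq
  rw [fr_sum3 (f := fun i x => ∑ j, pd i (pd j (fun y => u y i * u y j)) x)
    (fun i => SP.sum fun j _ => (((hu i).mul (hu j)).pd j).pd i) k, Finset.mul_sum]
  refine Finset.sum_congr rfl fun i _ => ?_
  rw [fr_sum3 (f := fun j => pd i (pd j (fun y => u y i * u y j)))
    (fun j => (((hu i).mul (hu j)).pd j).pd i) k, Finset.mul_sum]
  refine Finset.sum_congr rfl fun j _ => ?_
  rw [fr_pd2 ((hu i).mul (hu j))]
  ring

theorem fr_neg {f : V → ℝ} (k : K3) : fr (fun x => -f x) k = -fr f k := by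
  unfold fr fc
  rw [← integral_neg]
  congr 1
  funext x
  push_cast
  ring

/-- The coefficients of the pressure. -/
theorem fr_press {u : V → V} {p : V → ℝ} (hu : ∀ i, SP (fun y => u y i)) (hp : SP p)
    (h : ∀ x, -lap p x = ddq u x) {k : K3} (hk : k ≠ 0) :
    ‖fr p k‖ ≤ ∑ i, ∑ j, ‖fr (fun y => u y i * u y j) k‖ := by
  have h1 : fr (fun x => -lap p x) k = fr (ddq u) k := by
    congr 1
    funext x
    exact h x
  rw [fr_neg, fr_lap hp, fr_ddq hu] at h1
  have hq : 0 < ∑ j, (k j : ℝ) ^ 2 := by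
    have h2 : ∃ j, k j ≠ 0 := by
      by_contra hcon
      push Not at hcon
      exact hk (funext hcon)
    obtain ⟨j, hj⟩ := h2
    have h3 : 0 < (k j : ℝ) ^ 2 := by
      have : (k j : ℝ) ≠ 0 := by exact_mod_cast hj
      positivity
    exact h3.trans_le (Finset.single_le_sum (f := fun j => (k j : ℝ) ^ 2)
      (fun i _ => sq_nonneg _) (Finset.mem_univ j))
  have h2 : (∑ j, (k j : ℂ) ^ 2) * fr p k = -∑ i, ∑ j, (k i : ℂ) * (k j : ℂ) *
      fr (fun y => u y i * u y j) k := by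
    have hpi : (4 * (Real.pi : ℂ) ^ 2) ≠ 0 := by
      have : (Real.pi : ℂ) ≠ 0 := by exact_mod_cast Real.pi_ne_zero
      simp [this]
    apply mul_left_cancel₀ hpi
    linear_combination h1
  have h3 : ‖(∑ j, (k j : ℂ) ^ 2) * fr p k‖ = (∑ j, (k j : ℝ) ^ 2) * ‖fr p k‖ := by
    rw [norm_mul]
    congr 1
    have : (∑ j, (k j : ℂ) ^ 2) = ((∑ j, (k j : ℝ) ^ 2 : ℝ) : ℂ) := by push_cast; rfl
    rw [this, Complex.norm_real, Real.norm_of_nonneg hq.le]
  have h4 : ‖-∑ i, ∑ j, (k i : ℂ) * (k j : ℂ) * fr (fun y => u y i * u y j) k‖ ≤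
      (∑ j, (k j : ℝ) ^ 2) * ∑ i, ∑ j, ‖fr (fun y => u y i * u y j) k‖ := by
    rw [norm_neg, Finset.mul_sum]
    refine (norm_sum_le _ _).trans (Finset.sum_le_sum fun i _ => ?_)
    rw [Finset.mul_sum]
    refine (norm_sum_le _ _).trans (Finset.sum_le_sum fun j _ => ?_)
    rw [norm_mul, norm_mul]
    refine mul_le_mul_of_nonneg_right ?_ (norm_nonneg _)
    have n1 : ‖(k i : ℂ)‖ = |(k i : ℝ)| := by
      rw [← Complex.ofReal_intCast, Complex.norm_real, Real.norm_eq_abs]
    have n2 : ‖(k j : ℂ)‖ = |(k j : ℝ)| := by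
      rw [← Complex.ofReal_intCast, Complex.norm_real, Real.norm_eq_abs]
    rw [n1, n2]
    by_cases hij : i = j
    · subst hij
      rw [← sq, sq_abs]
      exact Finset.single_le_sum (f := fun j => (k j : ℝ) ^ 2)
        (fun i _ => sq_nonneg _) (Finset.mem_univ i)
    · have h5 : (k i : ℝ) ^ 2 + (k j : ℝ) ^ 2 ≤ ∑ j, (k j : ℝ) ^ 2 := by
        rw [← Finset.sum_pair hij (f := fun j => (k j : ℝ) ^ 2)]
        exact Finset.sum_le_sum_of_subset_of_nonneg (Finset.subset_univ _)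
          fun _ _ _ => sq_nonneg _
      have h6 := sq_nonneg (|(k i : ℝ)| - |(k j : ℝ)|)
      have h7 := sq_abs (k i : ℝ)
      have h8 := sq_abs (k j : ℝ)
      nlinarith [sq_nonneg (k i : ℝ), sq_nonneg (k j : ℝ)]
  rw [h2] at h3
  rw [h3] at h4
  exact le_of_mul_le_mul_left h4 hq

theorem sum9_sq (a : Fin 3 → Fin 3 → ℝ) : (∑ i, ∑ j, a i j) ^ 2 ≤ 9 * ∑ i, ∑ j, a i j ^ 2 := by
  have h1 : (∑ i, ∑ j, a i j) ^ 2 ≤ 3 * ∑ i, (∑ j, a i j) ^ 2 := by
    have := sq_sum_le_card_mul_sum_sq (s := (Finset.univ : Finset (Fin 3)))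
      (f := fun i => ∑ j, a i j)
    simpa using this
  have h2 : ∀ i, (∑ j, a i j) ^ 2 ≤ 3 * ∑ j, a i j ^ 2 := by
    intro i
    have := sq_sum_le_card_mul_sum_sq (s := (Finset.univ : Finset (Fin 3)))
      (f := fun j => a i j)
    simpa using this
  have h3 : ∑ i, (∑ j, a i j) ^ 2 ≤ ∑ i, 3 * ∑ j, a i j ^ 2 := Finset.sum_le_sum fun i _ => h2 i
  rw [← Finset.mul_sum] at h3
  linarith

/-- The pressure on the torus. -/
theorem press_le {u : V → V} {p : V → ℝ} (hu : ∀ i, SP (fun y => u y i)) (hp : SP p)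
    (h : ∀ x, -lap p x = ddq u x) :
    ∫ x in cube, (p x - ∫ y in cube, p y) ^ 2 ≤ 9 * ∫ x in cube, nsq u x ^ 2 := by
  set c : ℝ := ∫ y in cube, p y with hc
  set q : V → ℝ := fun x => p x - c with hq
  have hqs : SP q := ⟨hp.smooth.sub contDiff_const, fun i x => by
    show p (x + Pi.single i 1) - c = p x - c
    rw [hp.per i x]⟩
  have hlap : ∀ x, -lap q x = ddq u x := by
    intro x
    rw [← h x]
    have e : ∀ j, pd j q = pd j p := by
      intro j
      funext y
      unfold pd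
      rw [hq, fderiv_sub_const]
    unfold lap
    simp_rw [e]
  have h0 : fr q 0 = 0 := by
    unfold fr fc
    have e1 : ∀ x, ee (-0) x * ((q x : ℝ) : ℂ) = ((q x : ℝ) : ℂ) := by
      intro x
      rw [neg_zero, ee_zero, one_mul]
    simp_rw [e1]
    rw [integral_complex_ofReal]
    have e2 : ∫ x in cube, q x = 0 := by
      show ∫ x in cube, (p x - c) = 0
      rw [integral_sub hp.int (integrableOn_cube continuous_const), ← hc]
      simp [measureReal_def, volume_cube]
    rw [e2]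
    simp
  have hF : ∀ i j, SP (fun y => u y i * u y j) := fun i j => (hu i).mul (hu j)
  have hs : ∀ i j, Summable fun k => ‖fr (fun y => u y i * u y j) k‖ ^ 2 := fun i j =>
    summable_sq (rap_fr (hF i j)).summable
  have key : ∀ k, ‖fr q k‖ ^ 2 ≤ 9 * ∑ i, ∑ j, ‖fr (fun y => u y i * u y j) k‖ ^ 2 := by
    intro k
    by_cases hk : k = 0
    · rw [hk, h0, norm_zero]
      have : 0 ≤ ∑ i, ∑ j, ‖fr (fun y => u y i * u y j) 0‖ ^ 2 := by positivity
      norm_num
      exact this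
    · have h1 := fr_press hu hqs hlap hk
      exact (pow_le_pow_left₀ (norm_nonneg _) h1 2).trans (sum9_sq _)
  have e1 := n2_fr hqs
  rw [n2_sq] at e1
  have hS : Summable fun k => 9 * ∑ i, ∑ j, ‖fr (fun y => u y i * u y j) k‖ ^ 2 :=
    (summable_sum fun i _ => summable_sum fun j _ => hs i j).mul_left 9
  have e2 : ∫ x in cube, q x ^ 2 ≤ ∑' k, 9 * ∑ i, ∑ j, ‖fr (fun y => u y i * u y j) k‖ ^ 2 := by
    rw [← e1]
    exact (summable_sq (rap_fr hqs).summable).tsum_le_tsum key hS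
  refine e2.trans (le_of_eq ?_)
  rw [tsum_mul_left]
  congr 1
  rw [Summable.tsum_finsetSum fun i _ => summable_sum fun j _ => hs i j]
  have e3 : ∀ i, ∑' k, ∑ j, ‖fr (fun y => u y i * u y j) k‖ ^ 2 =
      ∑ j, ∫ x in cube, (u x i * u x j) ^ 2 := by
    intro i
    rw [Summable.tsum_finsetSum fun j _ => hs i j]
    refine Finset.sum_congr rfl fun j _ => ?_
    rw [← n2_sq, n2_fr (hF i j)]
  simp_rw [e3]
  have hi : ∀ i j, IntegrableOn (fun x => (u x i * u x j) ^ 2) cube := fun i j =>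
    integrableOn_cube ((hF i j).cont.pow 2)
  have e4 : ∑ i, ∑ j, ∫ x in cube, (u x i * u x j) ^ 2 =
      ∫ x in cube, ∑ i, ∑ j, (u x i * u x j) ^ 2 := by
    rw [integral_finsetSum _ fun i _ => integrable_finsetSum _ fun j _ => hi i j]
    refine Finset.sum_congr rfl fun i _ => ?_
    rw [integral_finsetSum _ fun j _ => hi i j]
  rw [e4]
  congr 1
  funext x
  unfold nsq
  rw [sq (∑ i, u x i ^ 2), Finset.sum_mul_sum]
  refine Finset.sum_congr rfl fun i _ => Finset.sum_congr rfl fun j _ => ?_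
  ring

end Pool.Agent.H4NS
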