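import Pool.Agent.W221.NS.Asm2
import Pool.Agent.W135.MD.FarA
import Pool.Agent.H4NS.Press

/-!
The flux through a cut-off function at a dyadic scale, at one time, for periodic solutions.
-/

open MeasureTheory Set Metric
open scoped ContDiff

namespace Pool.Agent.H4NS

open H459R3.NS W221.NS
open Pool.Agent.W386.MD (cd_comp cd_pd cont_comp cont_nsq cont_adv nsq_nonneg abs_comp_le adv_le cs
  iob hcs pd_zero adv_zero flux lap_sub' L4_mono A2_mono sq_mono rr_pos rr_anti)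

theorem rr_val (k : ℕ) : rr k = (1 / 2) ^ k := rfl

theorem vol_ball' (a : V) {ρ : ℝ} (hρ : 0 < ρ) : (volume (ball a ρ)).toReal = 8 * ρ ^ 3 := by
  rw [Real.volume_pi_ball a hρ, ENNReal.toReal_ofReal (by positivity)]
  simp only [Fintype.card_fin]
  ring

/-- Cauchy-Schwarz for the speed on a ball. -/
theorem speed_le {u : V → V} (hu : ContDiff ℝ ∞ u) (a : V) {ρ : ℝ} (hρ : 0 < ρ) {φ : V → ℝ}
    (hφc : Continuous φ) (hφ0 : ∀ z ∉ ball a ρ, φ z = 0) (hφ1 : ∀ z, |φ z| ≤ 1) :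
    ∫ z, |φ z| * √(nsq u z) ≤ √(8 * ρ ^ 3) * √(A2 a ρ u) := by
  have hc : Continuous fun z => √(nsq u z) := (cont_nsq hu).sqrt
  have e1 : ∫ z, |φ z| * √(nsq u z) = ∫ z in ball a ρ, |φ z| * √(nsq u z) := by
    rw [setIntegral_eq_integral_of_forall_compl_eq_zero]
    intro z hz
    rw [hφ0 z hz, abs_zero, zero_mul]
  rw [e1]
  have h1 : Continuous fun z => |φ z| * √(nsq u z) := hφc.abs.mul hc
  have h2 := cs (μ := volume.restrict (ball a ρ)) (fun z => |φ z|) (fun z => √(nsq u z))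
    (iob (hφc.abs.pow 2) a ρ) (iob (hc.pow 2) a ρ) (iob h1 a ρ)
  refine (le_abs_self _).trans (h2.trans ?_)
  have e2 : ∫ z in ball a ρ, √(nsq u z) ^ 2 = A2 a ρ u := by
    unfold A2
    refine integral_congr_ae (Filter.Eventually.of_forall fun z => ?_)
    exact Real.sq_sqrt (nsq_nonneg u z)
  have e3 : ∫ z in ball a ρ, |φ z| ^ 2 ≤ 8 * ρ ^ 3 := by
    have h3 : ∫ z in ball a ρ, |φ z| ^ 2 ≤ ∫ z in ball a ρ, (1 : ℝ) := by
      refine setIntegral_mono_on (iob (hφc.abs.pow 2) a ρ) (iob continuous_const a ρ)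
        measurableSet_ball ?_
      intro z _
      exact pow_le_one₀ (abs_nonneg _) (hφ1 z)
    rwa [setIntegral_const, measureReal_def, vol_ball' a hρ, smul_eq_mul, mul_one] at h3
  rw [e2]
  exact mul_le_mul_of_nonneg_right (Real.sqrt_le_sqrt e3) (Real.sqrt_nonneg _)

theorem scale_id {k : ℕ} (hk : 2 ≤ k) (A L : ℝ) :
    2 ^ k * (√A * √L) = 32 * (√((1 / 8) ^ k * A) * (√(32 ^ (k - 2)) * √L)) := by
  obtain ⟨m, rfl⟩ := Nat.exists_eq_add_of_le hk
  have e : 2 + m - 2 = m := by omega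
  rw [e, Real.sqrt_mul (by positivity)]
  have h1 : √((1 / 8 : ℝ) ^ (2 + m)) * √((32 : ℝ) ^ m) = 2 ^ m / 8 := by
    rw [← Real.sqrt_mul (by positivity)]
    have : (1 / 8 : ℝ) ^ (2 + m) * 32 ^ m = (2 ^ m / 8) ^ 2 := by
      have e1 : (1 / 8 : ℝ) ^ m * 32 ^ m = 4 ^ m := by
        rw [← mul_pow]; norm_num
      have e2 : ((2 : ℝ) ^ m) ^ 2 = 4 ^ m := by
        rw [← pow_mul, mul_comm, pow_mul]; norm_num
      have e3 : ((2 : ℝ) ^ m / 8) ^ 2 = ((2 : ℝ) ^ m) ^ 2 / 64 := by ring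
      rw [pow_add, mul_assoc, e1, e3, e2]
      norm_num
      ring
    rw [this, Real.sqrt_sq (by positivity)]
  calc 2 ^ (2 + m) * (√A * √L) = 32 * ((2 ^ m / 8) * (√A * √L)) := by
        rw [pow_add]; ring
    _ = 32 * ((√((1 / 8 : ℝ) ^ (2 + m)) * √((32 : ℝ) ^ m)) * (√A * √L)) := by rw [h1]
    _ = _ := by ring

/-- The bound for the speed in the units of the scale. -/
theorem speed_le' {u : V → V} (hu : ContDiff ℝ ∞ u) (a : V) (k : ℕ) {φ : V → ℝ}
    (hφc : Continuous φ) (hφ0 : ∀ z ∉ ball a (rr k), φ z = 0) (hφ1 : ∀ z, |φ z| ≤ 1) :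
    ∫ z, |φ z| * √(nsq u z) ≤ 3 * √((1 / 8) ^ k * A2 a (rr k) u) := by
  refine (speed_le hu a (rr_pos k) hφc hφ0 hφ1).trans ?_
  rw [Real.sqrt_mul (by norm_num), mul_assoc, ← Real.sqrt_mul (by have := rr_pos k; positivity)]
  have e : rr k ^ 3 = (1 / 8) ^ k := by
    rw [rr_val, ← pow_mul, mul_comm k 3, pow_mul]
    norm_num
  rw [e]
  refine mul_le_mul_of_nonneg_right ?_ (Real.sqrt_nonneg _)
  exact Real.sqrt_le_iff.2 ⟨by norm_num, by norm_num⟩

/-- The gradient of the harmonic part of the pressure. -/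
theorem harm_bd : ∃ C : ℝ, 0 < C ∧ ∀ C₀ : ℝ, 0 ≤ C₀ → ∀ (u : V → V) (p : V → ℝ), SPV u → SP p →
  (∀ x, -lap p x = ddq u x) → ∀ (a : V) (Q : V → ℝ), ContDiff ℝ ∞ Q →
    (∀ x ∈ ball a (1 / 16), -lap Q x = ddq u x) →
    ∫ x in ball a (rr 3), Q x ^ 2 ≤ C₀ * L4 a (rr 3) u →
      ∀ z ∈ ball a (1 / 32), ∀ i, |pd i (fun x => p x - Q x) z|
        ≤ C * (1 + C₀) * √(∫ x in cube, nsq u x ^ 2) := by
  obtain ⟨CA, hCA, hA⟩ := B.p_harm
  refine ⟨√(CA * ((1 / 16) ^ 5)⁻¹ * 18) + 1, by positivity, ?_⟩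
  intro C₀ hC₀ u p hu hp hpe a Q hQ hQe hQn z hz i
  have hsp : ∀ i, SP (fun y => u y i) := fun i =>
    ⟨contDiff_pi.1 hu.1 i, fun j x => by rw [hu.2 j x]⟩
  set c : ℝ := ∫ y in cube, p y with hc
  set L : ℝ := ∫ x in cube, nsq u x ^ 2 with hL
  have hL0 : 0 ≤ L := integral_nonneg fun x => sq_nonneg _
  have hP := press_le hsp hp hpe
  rw [← hc, ← hL] at hP
  have hQc := hQ.continuous
  have hpc := hp.cont
  set g : V → ℝ := fun x => p x - c - Q x with hg
  have hgs : ContDiff ℝ ∞ g := (hp.smooth.sub contDiff_const).sub hQ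
  have hgp : ∀ i, pd i g = pd i (fun x => p x - Q x) := by
    intro i
    funext y
    have e : g = fun x => (p x - Q x) - c := by
      funext x
      rw [hg]
      ring
    unfold pd
    rw [e, fderiv_sub_const]
  have hlap : ∀ x ∈ ball a (1 / 16), lap g x = 0 := by
    intro x hx
    have e : lap g x = lap (fun x => p x - Q x) x := by
      unfold lap
      simp_rw [hgp]
    rw [e, lap_sub' hp.smooth hQ]
    have h1 := hpe x
    have h2 := hQe x hx
    linarith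
  have h1 := (hA g hgs a (1 / 16) (by norm_num) hlap z (by
    have : (1 / 16 : ℝ) / 2 = 1 / 32 := by norm_num
    rw [this]
    exact hz) i).1
  have b1 : ball a (1 / 16) ⊆ ball a (rr 3) := ball_subset_ball (by norm_num [rr])
  have h2 : ∫ x in ball a (1 / 16), g x ^ 2 ≤
      ∫ x in ball a (1 / 16), (2 * (p x - c) ^ 2 + 2 * Q x ^ 2) := by
    refine setIntegral_mono_on (iob (hgs.continuous.pow 2) a _)
      (iob ((continuous_const.mul ((hpc.sub continuous_const).pow 2)).add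
        (continuous_const.mul (hQc.pow 2))) a _) measurableSet_ball ?_
    intro x _
    rw [hg]
    nlinarith [sq_nonneg ((p x - c) + Q x)]
  have h3 : ∫ x in ball a (1 / 16), (2 * (p x - c) ^ 2 + 2 * Q x ^ 2) =
      2 * (∫ x in ball a (1 / 16), (p x - c) ^ 2) + 2 * ∫ x in ball a (1 / 16), Q x ^ 2 := by
    have i1 : IntegrableOn (fun x => 2 * (p x - c) ^ 2) (ball a (1 / 16)) :=
      iob (continuous_const.mul ((hpc.sub continuous_const).pow 2)) a _
    have i2 : IntegrableOn (fun x => 2 * Q x ^ 2) (ball a (1 / 16)) :=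
      iob (continuous_const.mul (hQc.pow 2)) a _
    rw [integral_add i1 i2, integral_const_mul, integral_const_mul]
  have h4 : ∫ x in ball a (1 / 16), (p x - c) ^ 2 ≤ 9 * L := by
    refine le_trans ?_ hP
    refine Pool.Agent.W135.MD.ball_le_cube ((hpc.sub continuous_const).pow 2) ?_
      (fun y => sq_nonneg _) a (by norm_num)
    intro j x
    show (p (x + Pi.single j 1) - c) ^ 2 = (p x - c) ^ 2
    rw [hp.per j x]
  have h5 : ∫ x in ball a (1 / 16), Q x ^ 2 ≤ C₀ * L := by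
    refine (sq_mono hQc b1).trans (hQn.trans (mul_le_mul_of_nonneg_left ?_ hC₀))
    refine Pool.Agent.W135.MD.ball_le_cube ((cont_nsq hu.1).pow 2) ?_
      (fun y => sq_nonneg _) a (by norm_num [rr])
    intro j x
    show nsq u (x + Pi.single j 1) ^ 2 = nsq u x ^ 2
    unfold nsq
    rw [hu.2 j x]
  have h6 : pd i g z ^ 2 ≤ CA * ((1 / 16) ^ 5)⁻¹ * 18 * ((1 + C₀) ^ 2 * L) := by
    have h7 : ∫ x in ball a (1 / 16), g x ^ 2 ≤ 18 * ((1 + C₀) ^ 2 * L) := by
      have h8 : 0 ≤ C₀ * L := mul_nonneg hC₀ hL0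
      have h9 : 0 ≤ C₀ ^ 2 * L := by positivity
      calc ∫ x in ball a (1 / 16), g x ^ 2 ≤ 2 * (9 * L) + 2 * (C₀ * L) := by linarith
        _ ≤ 18 * ((1 + C₀) ^ 2 * L) := by nlinarith
    calc pd i g z ^ 2 ≤ CA * ((1 / 16) ^ 5)⁻¹ * ∫ x in ball a (1 / 16), g x ^ 2 := h1
      _ ≤ CA * ((1 / 16) ^ 5)⁻¹ * (18 * ((1 + C₀) ^ 2 * L)) :=
        mul_le_mul_of_nonneg_left h7 (by positivity)
      _ = _ := by ring
  rw [← hgp i, ← Real.sqrt_sq_eq_abs]
  refine (Real.sqrt_le_sqrt h6).trans ?_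
  rw [Real.sqrt_mul (show 0 ≤ CA * ((1 / 16) ^ 5)⁻¹ * 18 by positivity) ((1 + C₀) ^ 2 * L),
    Real.sqrt_mul (sq_nonneg (1 + C₀)) L, Real.sqrt_sq (by linarith)]
  have : 0 ≤ (1 + C₀) * √L := mul_nonneg (by linarith) (Real.sqrt_nonneg _)
  nlinarith

/-- The flux through a cut-off function at the scale `2⁻ᵏ`. -/
theorem flux_bd : ∃ C : ℝ, 0 < C ∧ ∀ (u : V → V) (p : V → ℝ), SPV u → SP p →
  (∀ x, ∑ i, pd i (fun y => u y i) x = 0) → (∀ x, -lap p x = ddq u x) →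
  ∀ (a : V) (k : ℕ), 5 ≤ k → ∀ (M : ℝ) (φ : V → ℝ), 0 < M → ContDiff ℝ ∞ φ →
    (∀ z ∉ ball a (rr k), φ z = 0) → (∀ z, |φ z| ≤ 1) → (∀ z i, |pd i φ z| ≤ M * 2 ^ k) →
      |∫ z, (nsq u z + 2 * p z) * adv u φ z|
        ≤ C * (1 + M) * (√((1 / 8) ^ k * A2 a (rr k) u) *
           (∑ j ∈ Finset.Ico 3 (k - 1), √(32 ^ j) * √(L4 a (rr j) u)
             + √(∫ x in cube, nsq u x ^ 2))) := by
  obtain ⟨C₀, hC₀, hR⟩ := B.p_riesz
  obtain ⟨C₁, hC₁, h1⟩ := B.p_pk1b C₀ hC₀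
  obtain ⟨C₂, hC₂, h2⟩ := harm_bd
  refine ⟨96 + 70 * C₁ + 18 * C₂ * (1 + C₀), by positivity, ?_⟩
  intro u p hu hp hdiv hpe a k hk M φ hM hφ hφ0 hφ1 hφg
  have hus := hu.1
  have hpc := hp.cont
  choose Q hQ using fun j : ℕ => hR u hus a (rr j) (rr_pos j)
  have hQc := (hQ 3).1.continuous
  have hφc := hφ.continuous
  have hcs : HasCompactSupport φ := hcs hφ0
  set X : ℝ := √((1 / 8) ^ k * A2 a (rr k) u) with hX
  set Y : ℝ := ∑ j ∈ Finset.Ico 3 (k - 1), √(32 ^ j) * √(L4 a (rr j) u) with hY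
  set Z : ℝ := √(∫ x in cube, nsq u x ^ 2) with hZ
  have hX0 : 0 ≤ X := Real.sqrt_nonneg _
  have hY0 : 0 ≤ Y := Finset.sum_nonneg fun _ _ => by positivity
  have hZ0 : 0 ≤ Z := Real.sqrt_nonneg _
  have hA2 : 0 ≤ A2 a (rr k) u := integral_nonneg fun z => nsq_nonneg u z
  -- the largest term
  have hLk : √(32 ^ (k - 2)) * √(L4 a (rr (k - 2)) u) ≤ Y := by
    rw [hY]
    refine Finset.single_le_sum (f := fun j => √((32 : ℝ) ^ j) * √(L4 a (rr j) u))
      (fun _ _ => by positivity) ?_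
    rw [Finset.mem_Ico]
    omega
  have hmain : 2 ^ k * (√(A2 a (rr k) u) * √(L4 a (rr (k - 2)) u)) ≤ 32 * (X * Y) := by
    rw [scale_id (by omega)]
    exact mul_le_mul_of_nonneg_left (mul_le_mul_of_nonneg_left hLk hX0) (by norm_num)
  -- the cubic term
  have t1 : |∫ z, nsq u z * adv u φ z| ≤ 96 * M * (X * Y) := by
    have h3 := flux hus (cont_nsq hus) hφ (rr_pos k) hφ0 hφg
    have h4 : √(∫ z in ball a (rr k), nsq u z ^ 2) ≤ √(L4 a (rr (k - 2)) u) :=
      Real.sqrt_le_sqrt (L4_mono hus (ball_subset_ball (rr_anti (by omega))))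
    calc |∫ z, nsq u z * adv u φ z|
        ≤ 3 * (M * 2 ^ k) * (√(∫ z in ball a (rr k), nsq u z ^ 2) * √(A2 a (rr k) u)) := h3
      _ ≤ 3 * (M * 2 ^ k) * (√(L4 a (rr (k - 2)) u) * √(A2 a (rr k) u)) := by gcongr
      _ = 3 * M * (2 ^ k * (√(A2 a (rr k) u) * √(L4 a (rr (k - 2)) u))) := by ring
      _ ≤ 3 * M * (32 * (X * Y)) := mul_le_mul_of_nonneg_left hmain (by positivity)
      _ = 96 * M * (X * Y) := by ring
  -- the speed
  have hsp := speed_le' hus a k hφc hφ0 hφ1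
  rw [← hX] at hsp
  -- the local pressure
  have t2 : |∫ z, Q 3 z * adv u φ z| ≤ C₁ * (32 * M + 3) * (X * Y) := by
    have h3 := h1 u u hus hus a Q (fun x _ => hdiv x) hQ k hk (M * 2 ^ k / 16 ^ k) φ
      (by positivity) hφ hφ0 (fun z i => by
        have := hφg z i
        rw [div_mul_cancel₀ _ (by positivity)]
        exact this)
    rw [div_mul_cancel₀ _ (by positivity)] at h3
    refine h3.trans ?_
    have h4 : ∑ j ∈ Finset.Ico 3 (k - 2), √(32 ^ j) * √(L4 a (rr j) u) ≤ Y := by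
      rw [hY]
      refine Finset.sum_le_sum_of_subset_of_nonneg ?_ fun _ _ _ => by positivity
      exact Finset.Ico_subset_Ico_right (by omega)
    have h5 : (∑ j ∈ Finset.Ico 3 (k - 2), √(32 ^ j) * √(L4 a (rr j) u)) *
        ∫ z, |φ z| * √(nsq u z) ≤ Y * (3 * X) := by
      refine mul_le_mul h4 hsp ?_ hY0
      exact integral_nonneg fun z => by positivity
    have h6 : M * 2 ^ k * √(L4 a (rr (k - 2)) u) * √(A2 a (rr k) u) ≤ M * (32 * (X * Y)) := by
      calc M * 2 ^ k * √(L4 a (rr (k - 2)) u) * √(A2 a (rr k) u)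
          = M * (2 ^ k * (√(A2 a (rr k) u) * √(L4 a (rr (k - 2)) u))) := by ring
        _ ≤ M * (32 * (X * Y)) := mul_le_mul_of_nonneg_left hmain hM.le
    calc C₁ * (M * 2 ^ k * √(L4 a (rr (k - 2)) u) * √(A2 a (rr k) u)
          + (∑ j ∈ Finset.Ico 3 (k - 2), √(32 ^ j) * √(L4 a (rr j) u)) *
            ∫ z, |φ z| * √(nsq u z)) ≤ C₁ * (M * (32 * (X * Y)) + Y * (3 * X)) :=
          mul_le_mul_of_nonneg_left (add_le_add h6 h5) hC₁.le
      _ = C₁ * (32 * M + 3) * (X * Y) := by ring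
  -- the harmonic part
  have t3 : |∫ z, (p z - Q 3 z) * adv u φ z| ≤ 9 * (C₂ * (1 + C₀)) * (X * Z) := by
    have hPQ : ContDiff ℝ ∞ (fun y => p y - Q 3 y) := hp.smooth.sub (hQ 3).1
    rw [Pool.Agent.W386.MD.ibp hus hdiv hPQ hφ hcs, abs_neg]
    have hb := h2 C₀ hC₀.le u p hu hp hpe a (Q 3) (hQ 3).1 (by
      have : rr 3 / 2 = 1 / 16 := by norm_num [rr]
      rw [← this]
      exact (hQ 3).2.1) (hQ 3).2.2
    rw [← hZ] at hb
    have hac : Continuous (adv u fun y => p y - Q 3 y) := cont_adv hus hPQ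
    have e1 : |∫ z, φ z * adv u (fun y => p y - Q 3 y) z| ≤
        ∫ z, (3 * (C₂ * (1 + C₀) * Z)) * (|φ z| * √(nsq u z)) := by
      refine (abs_integral_le_integral_abs).trans ?_
      have hc1 : Continuous fun z => |φ z * adv u (fun y => p y - Q 3 y) z| := (hφc.mul hac).abs
      have hc2 : Continuous fun z => 3 * (C₂ * (1 + C₀) * Z) * (|φ z| * √(nsq u z)) :=
        continuous_const.mul (hφc.abs.mul (cont_nsq hus).sqrt)
      refine integral_mono (hc1.integrable_of_hasCompactSupport ?_)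
        (hc2.integrable_of_hasCompactSupport ?_) ?_
      · exact Pool.Agent.W386.MD.hcs (a := a) (ρ := rr k) fun z hz => by
          simp [hφ0 z hz]
      · exact Pool.Agent.W386.MD.hcs (a := a) (ρ := rr k) fun z hz => by
          simp [hφ0 z hz]
      · intro z
        show |φ z * adv u (fun y => p y - Q 3 y) z| ≤ _
        by_cases hz : z ∈ ball a (rr k)
        · have hz' : z ∈ ball a (1 / 32) := by
            refine ball_subset_ball ?_ hz
            have : rr 5 = 1 / 32 := by norm_num [rr]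
            rw [← this]
            exact rr_anti hk
          have h3 := adv_le u (fun y => p y - Q 3 y) z _ (hb z hz')
          rw [abs_mul]
          calc |φ z| * |adv u (fun y => p y - Q 3 y) z|
              ≤ |φ z| * (3 * (C₂ * (1 + C₀) * Z) * √(nsq u z)) :=
                mul_le_mul_of_nonneg_left h3 (abs_nonneg _)
            _ = _ := by ring
        · have : φ z = 0 := hφ0 z hz
          rw [this, zero_mul, abs_zero]
          positivity
    rw [integral_const_mul] at e1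
    have h9 : 3 * (C₂ * (1 + C₀) * Z) * ∫ z, |φ z| * √(nsq u z) ≤
        3 * (C₂ * (1 + C₀) * Z) * (3 * X) := mul_le_mul_of_nonneg_left hsp (by positivity)
    refine e1.trans (h9.trans (le_of_eq ?_))
    ring
  -- conclusion
  have hadv : Continuous (adv u φ) := cont_adv hus hφ
  have hadc : HasCompactSupport (adv u φ) :=
    Pool.Agent.W386.MD.hcs (adv_zero u hφ (rr_pos k) hφ0)
  have i1 : Integrable fun z => nsq u z * adv u φ z :=
    ((cont_nsq hus).mul hadv).integrable_of_hasCompactSupport hadc.mul_left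
  have i2 : Integrable fun z => Q 3 z * adv u φ z :=
    (hQc.mul hadv).integrable_of_hasCompactSupport hadc.mul_left
  have i3 : Integrable fun z => (p z - Q 3 z) * adv u φ z :=
    ((hpc.sub hQc).mul hadv).integrable_of_hasCompactSupport hadc.mul_left
  have e : ∫ z, (nsq u z + 2 * p z) * adv u φ z = (∫ z, nsq u z * adv u φ z)
      + (2 * (∫ z, Q 3 z * adv u φ z) + 2 * ∫ z, (p z - Q 3 z) * adv u φ z) := by
    have i4 : Integrable fun z => 2 * (Q 3 z * adv u φ z) := i2.const_mul 2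
    have i5 : Integrable fun z => 2 * ((p z - Q 3 z) * adv u φ z) := i3.const_mul 2
    have i6 : Integrable fun z => 2 * (Q 3 z * adv u φ z) + 2 * ((p z - Q 3 z) * adv u φ z) :=
      i4.add i5
    rw [← integral_const_mul, ← integral_const_mul, ← integral_add i4 i5,
      ← integral_add i1 i6]
    congr 1
    funext z
    ring
  rw [e]
  have f1 := abs_add_le (∫ z, nsq u z * adv u φ z)
    (2 * (∫ z, Q 3 z * adv u φ z) + 2 * ∫ z, (p z - Q 3 z) * adv u φ z)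
  have f2 := abs_add_le (2 * (∫ z, Q 3 z * adv u φ z)) (2 * ∫ z, (p z - Q 3 z) * adv u φ z)
  rw [abs_mul, abs_mul, abs_of_pos (by norm_num : (0 : ℝ) < 2)] at f2
  have hXY : 0 ≤ X * Y := mul_nonneg hX0 hY0
  have hXZ : 0 ≤ X * Z := mul_nonneg hX0 hZ0
  have q1 : 0 ≤ M * (X * Y) := mul_nonneg hM.le hXY
  have q2 : 0 ≤ M * (X * Z) := mul_nonneg hM.le hXZ
  have q3 : 0 ≤ C₁ * (X * Y) := mul_nonneg hC₁.le hXY
  have q4 : 0 ≤ C₁ * (M * (X * Y)) := mul_nonneg hC₁.le q1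
  have q5 : 0 ≤ C₁ * (X * Z) := mul_nonneg hC₁.le hXZ
  have q6 : 0 ≤ C₁ * (M * (X * Z)) := mul_nonneg hC₁.le q2
  have hC20 : 0 ≤ C₂ * (1 + C₀) := by positivity
  have q7 : 0 ≤ C₂ * (1 + C₀) * (X * Y) := mul_nonneg hC20 hXY
  have q8 : 0 ≤ C₂ * (1 + C₀) * (M * (X * Y)) := mul_nonneg hC20 q1
  have q9 : 0 ≤ C₂ * (1 + C₀) * (M * (X * Z)) := mul_nonneg hC20 q2
  have q10 : 0 ≤ C₂ * (1 + C₀) * (X * Z) := mul_nonneg hC20 hXZ
  calc |(∫ z, nsq u z * adv u φ z)
      + (2 * (∫ z, Q 3 z * adv u φ z) + 2 * ∫ z, (p z - Q 3 z) * adv u φ z)|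
      ≤ 96 * M * (X * Y) + (2 * (C₁ * (32 * M + 3) * (X * Y))
        + 2 * (9 * (C₂ * (1 + C₀)) * (X * Z))) := by linarith
    _ = 96 * (M * (X * Y)) + 64 * (C₁ * (M * (X * Y))) + 6 * (C₁ * (X * Y))
        + 18 * (C₂ * (1 + C₀) * (X * Z)) := by ring
    _ ≤ 96 * (X * Y) + 96 * (M * (X * Y)) + 96 * (X * Z) + 96 * (M * (X * Z))
        + 70 * (C₁ * (X * Y)) + 70 * (C₁ * (M * (X * Y))) + 70 * (C₁ * (X * Z))
        + 70 * (C₁ * (M * (X * Z))) + 18 * (C₂ * (1 + C₀) * (X * Y))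
        + 18 * (C₂ * (1 + C₀) * (M * (X * Y))) + 18 * (C₂ * (1 + C₀) * (X * Z))
        + 18 * (C₂ * (1 + C₀) * (M * (X * Z))) := by linarith
    _ = _ := by ring

end Pool.Agent.H4NS
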