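import Pool.Agent.H4NS.Boot

/-!
Small local energies at one time stay small until the blow-up time.
-/

open MeasureTheory Set Metric Filter Topology
open scoped ContDiff

namespace Pool.Agent.H4NS

open H459R3.NS W221.NS
open Pool.Agent.W386.MD (cont_nsq cont_adv nsq_nonneg cs iob rr_pos rr_anti adv_zero A2_mono)

theorem ct_prim {T : ℝ} {f : ℝ → ℝ} (hf : ContinuousOn f (Ioo 0 T)) {t₀ : ℝ}
    (h0 : t₀ ∈ Ioo 0 T) : ContinuousOn (fun t => ∫ τ in t₀..t, f τ) (Ioo 0 T) := fun t ht =>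
  (intervalIntegral.integral_hasDerivAt_right (ii hf h0 ht)
    (hf.stronglyMeasurableAtFilter isOpen_Ioo t ht)
    (hf.continuousAt (isOpen_Ioo.mem_nhds ht))).continuousAt.continuousWithinAt

theorem LL_anti {ε : ℝ} (hε : 0 ≤ ε) (n : ℕ) {j k : ℕ} (hjk : j ≤ k) : LL ε n k ≤ LL ε n j := by
  unfold LL
  exact div_le_div_of_nonneg_left (by positivity) (by positivity)
    (pow_le_pow_right₀ (by norm_num) hjk)

theorem LL_succ (ε : ℝ) (n k : ℕ) : LL ε n k = 4 * LL ε n (k + 1) := by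
  unfold LL
  rw [pow_succ]
  field_simp

/-- Small local energies at one time stay small until the blow-up time. -/
theorem local_bound : ∃ e₀ l₀ d₀ : ℝ, 0 < e₀ ∧ 0 < l₀ ∧ l₀ ≤ 1 ∧ 0 < d₀ ∧
    ∀ (T : ℝ) (u : ℝ → V → V) (p : ℝ → V → ℝ), IsSol 1 T u p →
    ∀ (ε : ℝ) (n : ℕ) (t₀ : ℝ) (a : V), 0 < ε → ε ≤ e₀ → t₀ ∈ Ioo 0 T →
      4 ^ n * (T - t₀) ≤ l₀ → energy (u 0) ≤ d₀ * √ε * √(2 ^ n) →
      2 * energy (u 0) ≤ LL ε n 5 →
      (∀ k, 5 ≤ k → k ≤ n → A2 a (rr k) (u t₀) ≤ LL ε n k) →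
      ∀ k, 2 ≤ k → k ≤ n → ∀ t ∈ Ico t₀ T,
        A2 a (rr k) (u t) + ∫ τ in t₀..t, B2 a (rr k) (u τ) ≤ 9 * LL ε n k := by
  obtain ⟨C, hC, hstep⟩ := step_scale
  refine ⟨(1 / (3 * C)) ^ 2, min 1 (1 / (3 * C)), 1 / (3 * C), by positivity, by positivity,
    min_le_left _ _, by positivity, ?_⟩
  intro T u p h ε n t₀ a hε hεe h0 hl hE1 hE2 hA k hk hkn t ht
  set Y : ℕ → ℝ → ℝ := fun k t => A2 a (rr k) (u t) + ∫ τ in t₀..t, B2 a (rr k) (u τ) with hY
  have hLpos : ∀ k, 0 < LL ε n k := fun k => by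
    unfold LL
    positivity
  have hsub : Ico t₀ T ⊆ Ioo 0 T := fun x hx => ⟨h0.1.trans_le hx.1, hx.2⟩
  have hcont : ∀ k ∈ Finset.Icc 2 n, ContinuousOn (Y k) (Ico t₀ T) := fun k _ =>
    ((ct_A2 h a _).add (ct_prim (ct_B2 h a _) h0)).mono hsub
  have hen0 := energy_nonneg' (u 0)
  have hrr : ∀ k, 2 ≤ k → rr k ≤ 1 / 2 := fun k hk =>
    (rr_anti hk).trans (by norm_num [rr])
  have hlow : ∀ k, 2 ≤ k → k ≤ 5 → ∀ t ∈ Ico t₀ T, Y k t ≤ 8 * LL ε n k := by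
    intro k hk hk5 t ht
    have hti := hsub ht
    have e1 : A2 a (rr k) (u t) ≤ energy (u 0) :=
      (A2_le_energy (spv_u h hti) a (hrr k hk)).trans (h.energy_le one_pos (Ioo_sub hti))
    have e2 : ∫ τ in t₀..t, B2 a (rr k) (u τ) ≤ ∫ τ in t₀..t, enstrophy (u τ) := by
      refine intervalIntegral.integral_mono_on ht.1 (ii (ct_B2 h a _) h0 hti)
        (ii (h.enstrophy_continuousOn.mono Ioo_subset_Ico_self) h0 hti) fun s hs => ?_
      exact B2_le_enstrophy (spv_u h ⟨h0.1.trans_le hs.1, hs.2.trans_lt ht.2⟩) a (hrr k hk)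
    have e3 := enst_le h h0 hti ht.1
    have e4 := LL_anti hε.le n hk5
    have e5 := (hLpos k).le
    show A2 a (rr k) (u t) + ∫ τ in t₀..t, B2 a (rr k) (u τ) ≤ 8 * LL ε n k
    linarith
  have hl3 : min 1 (1 / (3 * C)) ≤ 1 / (3 * C) := min_le_right _ _
  have hsε : √ε ≤ 1 / (3 * C) := by
    rw [Real.sqrt_le_left (by positivity)]
    exact hεe
  have hC3 : C * (min 1 (1 / (3 * C)) + √ε + 1 / (3 * C)) ≤ 1 := by
    have e1 : C * (1 / (3 * C)) = 1 / 3 := by field_simp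
    have e2 : C * (min 1 (1 / (3 * C)) + √ε + 1 / (3 * C)) ≤
        C * (1 / (3 * C) + 1 / (3 * C) + 1 / (3 * C)) :=
      mul_le_mul_of_nonneg_left (by linarith) hC.le
    have e3 : C * (1 / (3 * C) + 1 / (3 * C) + 1 / (3 * C)) = 3 * (C * (1 / (3 * C))) := by ring
    rw [e3, e1] at e2
    linarith
  have main := boot (s := Finset.Icc 2 n) (Y := Y) (A := fun k => 8 * LL ε n k)
    (B := fun k => 9 * LL ε n k) (t₀ := t₀) (T := T)
    (fun k _ => by have := hLpos k; linarith) hcont ?_ ?_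
  · exact main t ht k (Finset.mem_Icc.2 ⟨hk, hkn⟩) t ⟨ht.1, le_rfl⟩
  · intro k hk
    rw [Finset.mem_Icc] at hk
    by_cases hk5 : k ≤ 5
    · exact hlow k hk.1 hk5 t₀ ⟨le_rfl, h0.2⟩
    · show A2 a (rr k) (u t₀) + ∫ τ in t₀..t₀, B2 a (rr k) (u τ) ≤ 8 * LL ε n k
      rw [intervalIntegral.integral_same, add_zero]
      have e1 := hA k (by omega) hk.2
      have := hLpos k
      linarith
  · intro t ht hB k hk
    rw [Finset.mem_Icc] at hk
    by_cases hk5 : k ≤ 5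
    · exact hlow k hk.1 hk5 t ht
    · obtain ⟨m, rfl⟩ : ∃ m, k = m + 1 := ⟨k - 1, by omega⟩
      have hti := hsub ht
      have hboot : Boot ε t₀ t a n u := fun j hj hjn s hs => hB j (Finset.mem_Icc.2 ⟨hj, hjn⟩) s hs
      have hlt : 4 ^ n * (t - t₀) ≤ min 1 (1 / (3 * C)) := by
        refine le_trans ?_ hl
        exact mul_le_mul_of_nonneg_left (by linarith [ht.2]) (by positivity)
      have e1 := hstep T u p h ε (1 / (3 * C)) (min 1 (1 / (3 * C))) a n m t₀ t hε.le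
        (by positivity) (min_le_left _ _) (by omega) (by omega) h0 hti ht.1 hlt hE1 hboot
      have e2 := hA m (by omega) (by omega)
      have e3 : C * (min 1 (1 / (3 * C)) + √ε + 1 / (3 * C)) * LL ε n m ≤ LL ε n m :=
        mul_le_of_le_one_left (hLpos m).le hC3
      have e4 := LL_succ ε n m
      show A2 a (rr (m + 1)) (u t) + ∫ τ in t₀..t, B2 a (rr (m + 1)) (u τ) ≤
        8 * LL ε n (m + 1)
      linarith

end Pool.Agent.H4NS
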