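import Pool.Agent.H4NS.Cut
import Pool.Agent.Y8.En

/-!
The local energy at dyadic scales in time.
-/

open MeasureTheory Set Metric Filter Topology
open scoped ContDiff

namespace Pool.Agent.H4NS

open H459R3.NS W221.NS
open Pool.Agent.W386.MD (cont_nsq cont_adv nsq_nonneg cs iob rr_pos rr_anti adv_zero A2_mono)
open Pool.Agent.Y8 (en_id DD pint_cont pint_cont_c nsq_joint gsq_joint adv_joint sl_sm)

variable {T : ℝ} {u : ℝ → V → V} {p : ℝ → V → ℝ}

theorem Ioo_sub {T t : ℝ} (ht : t ∈ Ioo 0 T) : t ∈ Ico 0 T := ⟨ht.1.le, ht.2⟩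

theorem sm_u (h : IsSol 1 T u p) :
    ContDiffOn ℝ ∞ (fun z : ℝ × V => u z.1 z.2) (Ioo 0 T ×ˢ univ) :=
  h.smooth_u.mono (prod_mono Ioo_subset_Ico_self subset_rfl)

theorem sm_p (h : IsSol 1 T u p) :
    ContDiffOn ℝ ∞ (fun z : ℝ × V => p z.1 z.2) (Ioo 0 T ×ˢ univ) :=
  h.smooth_p.mono (prod_mono Ioo_subset_Ico_self subset_rfl)

theorem spv_u (h : IsSol 1 T u p) {t : ℝ} (ht : t ∈ Ioo 0 T) : SPV (u t) :=
  ⟨sl_sm (sm_u h) ht, h.per_u t (Ioo_sub ht)⟩

theorem cf_joint (a : V) (k : ℕ) (T : ℝ) :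
    ContDiffOn ℝ ∞ (fun z : ℝ × V => (fun _ : ℝ => cf a k) z.1 z.2) (Ioo 0 T ×ˢ univ) :=
  ((cf_sm a k).comp contDiff_snd).contDiffOn

/-- The local energy identity with the cut-off function at the scale `2⁻ᵏ`. -/
theorem en_scale (h : IsSol 1 T u p) (a : V) (k : ℕ) {t : ℝ} (ht : t ∈ Ioo 0 T) :
    HasDerivAt (fun s => ∫ z, nsq (u s) z * cf a k z)
      (-2 * (∫ z, gsq (u t) z * cf a k z) + (∫ z, nsq (u t) z * lap (cf a k) z)
        + ∫ z, (nsq (u t) z + 2 * p t z) * adv (u t) (cf a k) z) t := by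
  have h1 := en_id (H := Ioo 0 T) isOpen_Ioo (sm_u h) (sm_p h)
    (fun t ht => h.divfree t (Ioo_sub ht)) (fun t ht x i => by
      have h2 := h.momentum t ht x i
      rw [one_mul] at h2
      exact h2) (Φ := fun _ => cf a k) (cf_joint a k T) (a := a) (R := rr k) (rr_pos k)
      (fun _ _ => cf_zero) ht
  refine h1.congr_deriv ?_
  unfold DD
  simp only [deriv_const', mul_one, one_mul, zero_add]

theorem ct_A2 (h : IsSol 1 T u p) (a : V) (ρ : ℝ) :
    ContinuousOn (fun t => A2 a ρ (u t)) (Ioo 0 T) :=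
  ((B.p_ct 0 T u (sm_u h)).1 a ρ).1

theorem ct_B2 (h : IsSol 1 T u p) (a : V) (ρ : ℝ) :
    ContinuousOn (fun t => B2 a ρ (u t)) (Ioo 0 T) :=
  ((B.p_ct 0 T u (sm_u h)).1 a ρ).2

theorem ct_D (h : IsSol 1 T u p) (a : V) (k : ℕ) :
    ContinuousOn (fun t => ∫ z, gsq (u t) z * cf a k z) (Ioo 0 T) := by
  refine pint_cont_c isOpen_Ioo (F := fun t z => gsq (u t) z * cf a k z) ?_ a (rr k)
    fun t _ z hz => by rw [cf_zero z hz, mul_zero]
  exact ((gsq_joint isOpen_Ioo (sm_u h)).mul (cf_joint a k T)).continuousOn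

theorem ct_L (h : IsSol 1 T u p) (a : V) (k : ℕ) :
    ContinuousOn (fun t => ∫ z, nsq (u t) z * lap (cf a k) z) (Ioo 0 T) := by
  refine pint_cont_c isOpen_Ioo (F := fun t z => nsq (u t) z * lap (cf a k) z) ?_ a (rr k)
    fun t _ z hz => by
      rw [Pool.Agent.Y8.lap_zero' (cf_sm a k) (rr_pos k) cf_zero hz, mul_zero]
  have h1 : ContDiff ℝ ∞ (lap (cf a k)) := by
    unfold lap
    exact ContDiff.sum fun j _ => Pool.Agent.W135.MD.sm_pd (Pool.Agent.W135.MD.sm_pd (cf_sm a k) j) j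
  exact ((nsq_joint (sm_u h)).mul (h1.comp contDiff_snd).contDiffOn).continuousOn

theorem ct_F (h : IsSol 1 T u p) (a : V) (k : ℕ) :
    ContinuousOn (fun t => ∫ z, (nsq (u t) z + 2 * p t z) * adv (u t) (cf a k) z) (Ioo 0 T) := by
  refine pint_cont_c isOpen_Ioo
    (F := fun t z => (nsq (u t) z + 2 * p t z) * adv (u t) (cf a k) z) ?_ a (rr k)
    fun t _ z hz => by
      rw [adv_zero (u t) (cf_sm a k) (rr_pos k) cf_zero z hz, mul_zero]
  have c1 : ContDiffOn ℝ ∞ (fun z : ℝ × V => 2 * p z.1 z.2) (Ioo 0 T ×ˢ univ) :=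
    contDiffOn_const.mul (sm_p h)
  have c2 : ContDiffOn ℝ ∞ (fun z : ℝ × V => nsq (u z.1) z.2 + 2 * p z.1 z.2)
      (Ioo 0 T ×ˢ univ) := (nsq_joint (sm_u h)).add c1
  have c3 : ContDiffOn ℝ ∞ (fun z : ℝ × V => adv (u z.1) (cf a k) z.2) (Ioo 0 T ×ˢ univ) :=
    adv_joint (φ := fun _ => cf a k) isOpen_Ioo (sm_u h) (cf_joint a k T)
  exact (c2.mul c3).continuousOn

theorem ii {f : ℝ → ℝ} (hf : ContinuousOn f (Ioo 0 T)) {a b : ℝ} (ha : a ∈ Ioo 0 T)
    (hb : b ∈ Ioo 0 T) : IntervalIntegrable f volume a b := by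
  refine (hf.mono ?_).intervalIntegrable
  intro x hx
  rw [mem_uIcc] at hx
  rcases hx with hx | hx
  · exact ⟨ha.1.trans_le hx.1, hx.2.trans_lt hb.2⟩
  · exact ⟨hb.1.trans_le hx.1, hx.2.trans_lt ha.2⟩

/-- The integrated local energy identity. -/
theorem en_int (h : IsSol 1 T u p) (a : V) (k : ℕ) {t₀ t₁ : ℝ} (h0 : t₀ ∈ Ioo 0 T)
    (h1 : t₁ ∈ Ioo 0 T) (h01 : t₀ ≤ t₁) :
    (∫ z, nsq (u t₁) z * cf a k z) + 2 * (∫ s in t₀..t₁, ∫ z, gsq (u s) z * cf a k z) =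
      (∫ z, nsq (u t₀) z * cf a k z) + (∫ s in t₀..t₁, ∫ z, nsq (u s) z * lap (cf a k) z)
        + ∫ s in t₀..t₁, ∫ z, (nsq (u s) z + 2 * p s z) * adv (u s) (cf a k) z := by
  have i1 := ii (ct_D h a k) h0 h1
  have i2 := ii (ct_L h a k) h0 h1
  have i3 := ii (ct_F h a k) h0 h1
  have i4 : IntervalIntegrable (fun s => -2 * (∫ z, gsq (u s) z * cf a k z)
      + (∫ z, nsq (u s) z * lap (cf a k) z)) volume t₀ t₁ := (i1.const_mul (-2)).add i2
  have h2 := intervalIntegral.integral_eq_sub_of_hasDerivAt (a := t₀) (b := t₁)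
    (f := fun s => ∫ z, nsq (u s) z * cf a k z)
    (f' := fun s => -2 * (∫ z, gsq (u s) z * cf a k z) + (∫ z, nsq (u s) z * lap (cf a k) z)
        + ∫ z, (nsq (u s) z + 2 * p s z) * adv (u s) (cf a k) z) (fun s hs => by
      rw [uIcc_of_le h01] at hs
      exact en_scale h a k ⟨h0.1.trans_le hs.1, hs.2.trans_lt h1.2⟩) (i4.add i3)
  rw [intervalIntegral.integral_add i4 i3,
    intervalIntegral.integral_add (i1.const_mul (-2)) i2,
    intervalIntegral.integral_const_mul] at h2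
  linarith

theorem int_cf {f : V → ℝ} (hf : Continuous f) (a : V) (k : ℕ) :
    Integrable fun z => f z * cf a k z :=
  Pool.Agent.Y8.int_csR (hf.mul (cf_sm a k).continuous) (a := a) (R := rr k) fun z hz => by
    rw [cf_zero z hz, mul_zero]

theorem cf_lower {f : V → ℝ} (hf : Continuous f) (h0 : ∀ z, 0 ≤ f z) (a : V) (k : ℕ) :
    ∫ z in ball a (rr (k + 1)), f z ≤ ∫ z, f z * cf a k z := by
  have h1 : ∫ z in ball a (rr (k + 1)), f z = ∫ z in ball a (rr (k + 1)), f z * cf a k z := by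
    refine setIntegral_congr_fun measurableSet_ball fun z hz => ?_
    show f z = f z * cf a k z
    rw [cf_one hz, mul_one]
  rw [h1]
  exact setIntegral_le_integral (int_cf hf a k)
    (Eventually.of_forall fun z => mul_nonneg (h0 z) (cf_nonneg a k z))

theorem cf_upper {f : V → ℝ} (hf : Continuous f) (h0 : ∀ z, 0 ≤ f z) (a : V) (k : ℕ) :
    ∫ z, f z * cf a k z ≤ ∫ z in ball a (rr k), f z := by
  rw [← setIntegral_eq_integral_of_forall_compl_eq_zero (s := ball a (rr k))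
    (f := fun z => f z * cf a k z) fun z hz => by rw [cf_zero z hz, mul_zero]]
  refine setIntegral_mono_on (iob (hf.mul (cf_sm a k).continuous) a _) (iob hf a _)
    measurableSet_ball fun z _ => ?_
  exact mul_le_of_le_one_right (h0 z) (cf_le a k z)

theorem lap_bd {M : ℝ} {a : V} {k : ℕ} (hM : ∀ z : V, |lap (cf a k) z| ≤ M * 4 ^ k) {v : V → V}
    (hv : ContDiff ℝ ∞ v) : |∫ z, nsq v z * lap (cf a k) z| ≤ M * 4 ^ k * A2 a (rr k) v := by
  have h1 : ContDiff ℝ ∞ (lap (cf a k)) := by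
    unfold lap
    exact ContDiff.sum fun j _ => Pool.Agent.W135.MD.sm_pd (Pool.Agent.W135.MD.sm_pd (cf_sm a k) j) j
  rw [← setIntegral_eq_integral_of_forall_compl_eq_zero (s := ball a (rr k))
    (f := fun z => nsq v z * lap (cf a k) z) fun z hz => by
      rw [Pool.Agent.Y8.lap_zero' (cf_sm a k) (rr_pos k) cf_zero hz, mul_zero]]
  refine (abs_integral_le_integral_abs).trans ?_
  unfold A2
  rw [← integral_const_mul]
  refine setIntegral_mono_on (iob ((cont_nsq hv).mul h1.continuous).abs a _)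
    (iob (continuous_const.mul (cont_nsq hv)) a _) measurableSet_ball fun z _ => ?_
  rw [abs_mul, abs_of_nonneg (nsq_nonneg v z), mul_comm]
  exact mul_le_mul_of_nonneg_right (hM z) (nsq_nonneg v z)

/-- The dissipation on a time interval. -/
theorem enst_le (h : IsSol 1 T u p) {t₀ t₁ : ℝ} (h0 : t₀ ∈ Ioo 0 T) (h1 : t₁ ∈ Ioo 0 T)
    (h01 : t₀ ≤ t₁) : ∫ s in t₀..t₁, enstrophy (u s) ≤ energy (u 0) / 2 := by
  have h2 := Pool.Agent.W125.MD.int_enst one_pos h h1.1.le h1.2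
  rw [mul_one] at h2
  refine le_trans ?_ h2
  have hc : ContinuousOn (fun s => enstrophy (u s)) (Icc 0 t₁) :=
    h.enstrophy_continuousOn.mono fun s hs => ⟨hs.1, hs.2.trans_lt h1.2⟩
  refine intervalIntegral.integral_mono_interval h0.1.le h01 le_rfl
    (Eventually.of_forall fun s => enstrophy_nonneg' (u s)) ?_
  exact ContinuousOn.intervalIntegrable (by rwa [uIcc_of_le h1.1.le])

theorem sum_two (m : ℕ) : ∑ j ∈ Finset.range m, √((2 : ℝ) ^ j) ≤ 3 * √(2 ^ m) := by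
  induction m with
  | zero => simp
  | succ m ih =>
    rw [Finset.sum_range_succ, pow_succ, Real.sqrt_mul (by positivity)]
    have h1 : (4 / 3 : ℝ) ≤ √2 := by
      apply Real.le_sqrt_of_sq_le
      norm_num
    have h2 : 0 ≤ √((2 : ℝ) ^ m) := Real.sqrt_nonneg _
    nlinarith

end Pool.Agent.H4NS
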