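import Pool.Agent.H4NS.Count

/-!
The number of singular points at the first blow-up time of a smooth periodic solution of the
Navier-Stokes equations, in terms of the weak `Lᵠ` quasinorms, `3 ≤ q < 6`, along a sequence of
times.
-/

open MeasureTheory Set Metric Filter Topology
open scoped ContDiff ENNReal

namespace Pool.Agent.Results.MP_6bf1e5_an.TypeICount

open H459R3.NS W221.NS Pool.Agent.H4NS

/-- For `3 ≤ q < 6` there is a constant `C` such that for every smooth `1`-periodic solution with
viscosity `ν` on `[0, T)` and every open set `U`: if there are times `t` arbitrarily close to `T` at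
which the weak `Lᵠ` quasinorm of `u(t)` over `U` is at most `M ν (ν (T - t)) ^ (-(1 - 3 / q) / 2)`
(for `q = 3`: at most `M ν`), then the number of the points of `U` which are singular at the time
`T` is at most `C M ^ q`. -/
theorem result : ∀ q : ℝ, 3 ≤ q → q < 6 → ∃ C : ℝ,
    ∀ (ν T M : ℝ) (u : ℝ → V → V) (p : ℝ → V → ℝ) (U : Set V), 0 < ν → 0 < T → 0 < M →
      IsSol ν T u p → IsOpen U →
      (∃ᶠ t in 𝓝[<] T, WeakLe q U (M * ν * (ν * (T - t)) ^ (-((1 - 3 / q) / 2))) (u t)) →
        {x ∈ U | Sing T u x}.Finite ∧ ({x ∈ U | Sing T u x}.ncard : ℝ) ≤ C * M ^ q := by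
  intro q hq hq6
  obtain ⟨C, hC, hcount⟩ := count1 hq hq6
  refine ⟨C, ?_⟩
  intro ν T M u p U hν hT hM h hU hfreq
  have hsol := B.p_scale ν T u p hν hT h
  -- the bound for every finite set
  have hfin : ∀ S : Finset V, (∀ x ∈ S, x ∈ U ∧ Sing T u x) → (S.card : ℝ) ≤ C * M ^ q := by
    intro S hS
    refine hcount (ν * T) (fun t x => ν⁻¹ • u (t / ν) x) (fun t x => (ν ^ 2)⁻¹ * p (t / ν) x) M U
      (mul_pos hν hT) hM hsol hU ?_ S fun x hx => ⟨(hS x hx).1, sing_scale hν (hS x hx).2⟩
    -- the times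
    have hmap : Tendsto (fun t : ℝ => ν * t) (𝓝[<] T) (𝓝[<] (ν * T)) := by
      refine tendsto_nhdsWithin_of_tendsto_nhds_of_eventually_within _ ?_ ?_
      · exact ((continuous_const.mul continuous_id).tendsto T).mono_left nhdsWithin_le_nhds
      · filter_upwards [self_mem_nhdsWithin] with t ht
        exact mul_lt_mul_of_pos_left ht hν
    refine hmap.frequently (hfreq.mono fun t ht => ?_)
    intro s hs
    have e1 : ν * t / ν = t := by field_simp
    have e2 : ν * T - ν * t = ν * (T - t) := by ring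
    have h1 := ht (ν * s) (mul_pos hν hs)
    rw [e2]
    refine le_trans (le_of_eq ?_) (h1.trans (le_of_eq ?_))
    · congr 1
      ext x
      simp only [Set.mem_ofPred_eq, e1, Pi.smul_apply, smul_eq_mul]
      have e3 : ∑ i, (ν⁻¹ * u t x i) ^ 2 = (ν⁻¹) ^ 2 * ∑ i, u t x i ^ 2 := by
        rw [Finset.mul_sum]
        exact Finset.sum_congr rfl fun i _ => by ring
      rw [e3, Real.sqrt_mul (sq_nonneg _), Real.sqrt_sq (inv_nonneg.2 hν.le), inv_mul_eq_div,
        lt_div_iff₀ hν, mul_comm s ν]
    · congr 2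
      field_simp
  -- the set is finite
  have hF : {x ∈ U | Sing T u x}.Finite := by
    by_contra hcon
    obtain ⟨N, hN⟩ := exists_nat_gt (C * M ^ q)
    obtain ⟨S, hS, hSN⟩ := (Set.not_finite.1 hcon).exists_subset_card_eq N
    have h1 := hfin S fun x hx => hS hx
    rw [hSN] at h1
    linarith
  refine ⟨hF, ?_⟩
  rw [ncard_eq_toFinset_card _ hF]
  exact hfin _ fun x hx => by
    have := hF.mem_toFinset.1 hx
    exact this

end Pool.Agent.Results.MP_6bf1e5_an.TypeICount
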